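import Pool.Agent.K9h74.LF.Tail

/-!
Bounded sequences in Lipschitz-free spaces over uniformly separated metric spaces.
-/

set_option autoImplicit false
set_option linter.unusedSectionVars false

noncomputable section

namespace Pool.Agent.K9h74.LF

open Set Filter Topology

universe u v

variable {𝕜 : Type v} [RCLike 𝕜] {M : Type u} [MetricSpace M]

theorem opn {E : Type*} [NormedAddCommGroup E] [NormedSpace 𝕜 E] (Φ : StrongDual 𝕜 E) (c : ℝ)
    (hc : 0 ≤ c) (h : ∀ x : E, ‖x‖ ≤ 1 → ‖Φ x‖ ≤ c) : ‖Φ‖ ≤ c := by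
  refine ContinuousLinearMap.opNorm_le_bound _ hc fun x => ?_
  rcases eq_or_ne x 0 with rfl | hx
  · simp
  · have hx' : 0 < ‖x‖ := norm_pos_iff.2 hx
    have h1 := h ((((‖x‖)⁻¹ : ℝ) : 𝕜) • x) (by
      rw [norm_smul, RCLike.norm_ofReal, abs_of_pos (inv_pos.2 hx'),
        inv_mul_cancel₀ hx'.ne'])
    rw [map_smul, norm_smul, RCLike.norm_ofReal, abs_of_pos (inv_pos.2 hx'),
      inv_mul_le_iff₀ hx', mul_comm] at h1
    exact h1

theorem Lip0.lp {o : M} (f : Lip0 𝕜 M o) (hf : ‖f‖ ≤ 1) : Lp o 1 f.fn :=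
  ⟨f.fn_base, fun x y => (f.norm_sub_le' x y).trans
    (mul_le_mul_of_nonneg_right hf dist_nonneg)⟩

/-- the functional given by a finitely supported measure -/
def fs (o : M) (A : Finset M) (m : M → 𝕜) : StrongDual 𝕜 (Lip0 𝕜 M o) :=
  ∑ p ∈ A, m p • dlt 𝕜 M o p

theorem fs_apply (o : M) (A : Finset M) (m : M → 𝕜) (f : Lip0 𝕜 M o) :
    fs o A m f = pr A m f.fn := by
  simp [fs, pr]

theorem fs_mem (o : M) (A : Finset M) (m : M → 𝕜) : fs o A m ∈ LFree 𝕜 M o :=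
  Submodule.sum_mem _ fun p _ => Submodule.smul_mem _ _ (dlt_mem p)

theorem tv_bound (o : M) (s : ℝ) (hs : 0 < s) (hsep : ∀ x y : M, x ≠ y → s ≤ dist x y)
    (A : Finset M) (m : M → 𝕜) (B : ℝ) (hB : ∀ f : M → 𝕜, Lp o 1 f → ‖pr A m f‖ ≤ B)
    [DecidableEq M] :
    ∑ p ∈ A.erase o, ‖m p‖ ≤ 2 / s * B := by
  classical
  set f : M → 𝕜 := fun p => if p = o then 0 else ((s / 2 : ℝ) : 𝕜) * ph (m p) with hf
  have hn : ∀ p, ‖f p‖ ≤ s / 2 := by
    intro p
    simp only [hf]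
    split_ifs
    · rw [norm_zero]; positivity
    · rw [norm_mul, norm_ph, RCLike.norm_ofReal, abs_of_pos (by positivity), mul_one]
  have hL : Lp o 1 f := by
    refine ⟨by simp [hf], fun x y => ?_⟩
    rcases eq_or_ne x y with rfl | hxy
    · simp
    · rw [one_mul]
      refine (norm_sub_le _ _).trans ((add_le_add (hn x) (hn y)).trans ?_)
      rw [add_halves]
      exact hsep x y hxy
  have h1 := hB f hL
  have h2 : pr A m f = ((s / 2 * ∑ p ∈ A.erase o, ‖m p‖ : ℝ) : 𝕜) := by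
    have h3 : pr A m f = ∑ p ∈ A.erase o, m p * f p := by
      unfold pr
      symm
      apply Finset.sum_erase
      simp [hf]
    rw [h3, RCLike.ofReal_mul, RCLike.ofReal_sum, Finset.mul_sum]
    refine Finset.sum_congr rfl fun p hp => ?_
    simp only [hf, if_neg (Finset.ne_of_mem_erase hp)]
    rw [← ph_mul]
    ring
  rw [h2, RCLike.norm_ofReal] at h1
  have h4 := (le_abs_self _).trans h1
  rw [div_mul_eq_mul_div, le_div_iff₀ hs]
  linarith

theorem core_fin (o : M) (s : ℝ) (hs : 0 < s) (hsep : ∀ x y : M, x ≠ y → s ≤ dist x y)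
    (U : Ultrafilter ℕ) (hU : (U : Filter ℕ) ≤ atTop) (A : ℕ → Finset M)
    (m : ℕ → M → 𝕜) (B : ℝ) (hB : ∀ l, ∀ f : M → 𝕜, Lp o 1 f → ‖pr (A l) (m l) f‖ ≤ B)
    (δ : ℝ) (hosc : Osc o A m δ) (ε : ℝ) (hε : 0 < ε) :
    ∃ y ∈ LFree 𝕜 M o, ∀ᶠ l in (U : Filter ℕ), ‖fs o (A l) (m l) - y‖ ≤ 27 * δ + ε := by
  classical
  have hLp0 : Lp o 1 (fun _ : M => (0 : 𝕜)) := ⟨rfl, fun x y => by simp⟩
  have hB0 : 0 ≤ B := (norm_nonneg _).trans (hB 0 _ hLp0)
  have hδ0 : 0 ≤ δ := by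
    refine le_of_forall_pos_le_add fun e he => ?_
    obtain ⟨n, hn⟩ := hosc _ hLp0 e he
    exact (norm_nonneg _).trans (hn n le_rfl n le_rfl)
  obtain ⟨R, hR, htail⟩ := tail_step o U hU A m B hB δ hosc (ε / 4) (by positivity)
  set ν : ℕ → M → 𝕜 := fun l p => ((LF.cut o R p : ℝ) : 𝕜) * m l p with hν
  have hprν : ∀ l (f : M → 𝕜), pr (A l) (ν l) f =
      pr (A l) (m l) (fun p => ((LF.cut o R p : ℝ) : 𝕜) * f p) := by
    intro l f
    simp only [pr, hν]
    exact Finset.sum_congr rfl fun p _ => by ring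
  have hoscν : Osc o A ν (3 * δ) := by
    intro f hf e he
    obtain ⟨n, hn⟩ := osc_scale hosc (by norm_num : (0 : ℝ) < 3 * 1)
      (hf.cut zero_le_one hR) e he
    refine ⟨n, fun k hk l hl => ?_⟩
    rw [hprν, hprν]
    have := hn k hk l hl
    rwa [mul_one] at this
  have hW : ∀ l, ∑ p ∈ A l, ‖ν l p‖ * dist p o ≤ 2 * R * (2 / s * B) := by
    intro l
    have h1 : ∑ p ∈ A l, ‖ν l p‖ * dist p o = ∑ p ∈ (A l).erase o, ‖ν l p‖ * dist p o := by
      symm
      apply Finset.sum_erase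
      simp
    rw [h1]
    have h2 : ∀ p ∈ (A l).erase o, ‖ν l p‖ * dist p o ≤ 2 * R * ‖m l p‖ := by
      intro p _
      simp only [hν]
      rw [norm_mul, RCLike.norm_ofReal, abs_of_nonneg (cut_nonneg _ _ _)]
      rcases lt_or_ge (dist p o) (2 * R) with hp | hp
      · calc LF.cut o R p * ‖m l p‖ * dist p o ≤ 1 * ‖m l p‖ * (2 * R) := by
              refine mul_le_mul (mul_le_mul_of_nonneg_right (cut_le_one _ _ _) (norm_nonneg _))
                hp.le dist_nonneg (by positivity)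
          _ = _ := by ring
      · rw [cut_eq_zero hR hp, zero_mul, zero_mul]
        positivity
    refine (Finset.sum_le_sum h2).trans ?_
    rw [← Finset.mul_sum]
    exact mul_le_mul_of_nonneg_left (tv_bound o s hs hsep (A l) (m l) B (hB l)) (by positivity)
  obtain ⟨T, hT, hgood⟩ := bdd_step o U hU A ν _ hW (3 * δ) hoscν (ε / 4) (by positivity)
  set q : ℝ := 5 * (3 * δ) + ε / 4 with hq
  have hq0 : 0 ≤ q := by positivity
  -- the subspaces
  set Z : Submodule 𝕜 (Lip0 𝕜 M o) := ⨅ t : T, LinearMap.ker (dlt 𝕜 M o t.1).toLinearMap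
    with hZ
  have hZmem : ∀ h : Lip0 𝕜 M o, h ∈ Z ↔ ∀ t ∈ T, h.fn t = 0 := by
    intro h
    simp only [hZ, Submodule.mem_iInf, LinearMap.mem_ker, Subtype.forall]
    rfl
  set S : Submodule 𝕜 (StrongDual 𝕜 (Lip0 𝕜 M o)) :=
    Submodule.span 𝕜 (Set.range fun t : T => dlt 𝕜 M o t.1) with hS
  have hSfin : FiniteDimensional 𝕜 (SubSp S) :=
    FiniteDimensional.span_of_finite 𝕜 (Set.finite_range _)
  have hSle : S ≤ LFree 𝕜 M o := by
    rw [hS, Submodule.span_le]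
    rintro _ ⟨t, rfl⟩
    exact dlt_mem t.1
  have hprop : ProperSpace (SubSp S) := FiniteDimensional.proper_rclike 𝕜 (SubSp S)
  have hNn : ∀ l, ‖fs o (A l) (ν l)‖ ≤ 3 * B := by
    intro l
    refine opn _ _ (by positivity) fun h hh => ?_
    rw [fs_apply, hprν]
    have := bound_scale (hB l) (by norm_num : (0 : ℝ) < 3 * 1) ((h.lp hh).cut zero_le_one hR)
    rwa [mul_one] at this
  have hy : ∀ l, ∃ y : SubSp S, ((∀ h : M → 𝕜, Lp o 1 h → (∀ t ∈ T, h t = 0) →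
      ‖pr (A l) (ν l) h‖ ≤ q) → ‖fs o (A l) (ν l) - SubSp.inc S y‖ ≤ q) ∧
      ‖y‖ ≤ 3 * B + q := by
    intro l
    by_cases hg : ∀ h : M → 𝕜, Lp o 1 h → (∀ t ∈ T, h t = 0) → ‖pr (A l) (ν l) h‖ ≤ q
    · obtain ⟨g, hg1, hg2⟩ := exists_extension_norm_eq Z
        ((fs o (A l) (ν l)).comp Z.subtypeL)
      have hgn : ‖g‖ ≤ q := by
        rw [hg2]
        refine opn _ _ hq0 fun h hh => ?_
        change ‖fs o (A l) (ν l) (h : Lip0 𝕜 M o)‖ ≤ q
        rw [fs_apply]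
        exact hg _ (Lip0.lp _ hh) ((hZmem _).1 h.2)
      have hmem : fs o (A l) (ν l) - g ∈ S := by
        have h1 : (⨅ t : T, LinearMap.ker (dlt 𝕜 M o t.1).toLinearMap) ≤
            LinearMap.ker (fs o (A l) (ν l) - g).toLinearMap := by
          intro h hh
          rw [LinearMap.mem_ker]
          change fs o (A l) (ν l) h - g h = 0
          have := hg1 ⟨h, hh⟩
          rw [sub_eq_zero]
          exact this.symm
        have h2 := mem_span_of_iInf_ker_le_ker h1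
        rw [Submodule.mem_span_range_iff_exists_fun] at h2 ⊢
        obtain ⟨c, hc⟩ := h2
        refine ⟨c, ?_⟩
        ext h
        have := LinearMap.congr_fun hc h
        simpa using this
      refine ⟨⟨_, hmem⟩, fun _ => ?_, ?_⟩
      · change ‖fs o (A l) (ν l) - (fs o (A l) (ν l) - g)‖ ≤ q
        rw [sub_sub_cancel]
        exact hgn
      · change ‖fs o (A l) (ν l) - g‖ ≤ _
        exact (norm_sub_le _ _).trans (add_le_add (hNn l) hgn)
    · exact ⟨0, fun h => absurd h hg, by rw [norm_zero]; positivity⟩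
  choose y hy1 hy2 using hy
  obtain ⟨y0, hy0⟩ := ulim U y _ hy2
  have hy0' := ((hy0.sub_const y0).norm)
  rw [sub_self, norm_zero] at hy0'
  have hev := hy0'.eventually_lt_const (show (0 : ℝ) < ε / 4 by positivity)
  refine ⟨SubSp.inc S y0, hSle y0.2, ?_⟩
  filter_upwards [htail, hgood, hev] with l h1 h2 h3
  have e1 : ‖fs o (A l) (m l) - fs o (A l) (ν l)‖ ≤ 12 * δ + ε / 4 := by
    refine opn _ _ (by positivity) fun h hh => ?_
    change ‖fs o (A l) (m l) h - fs o (A l) (ν l) h‖ ≤ _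
    rw [fs_apply, fs_apply, hprν, ← pr_sub]
    exact h1 _ (h.lp hh)
  have e2 := hy1 l h2
  have e3 : ‖SubSp.inc S (y l) - SubSp.inc S y0‖ < ε / 4 := h3
  have e4 : fs o (A l) (m l) - SubSp.inc S y0 =
      (fs o (A l) (m l) - fs o (A l) (ν l)) +
        (fs o (A l) (ν l) - SubSp.inc S (y l)) +
        (SubSp.inc S (y l) - SubSp.inc S y0) := by abel
  rw [e4]
  refine (norm_add₃_le).trans ?_
  linarith

theorem approx_fs (o : M) (x : StrongDual 𝕜 (Lip0 𝕜 M o)) (hx : x ∈ LFree 𝕜 M o) (ε : ℝ)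
    (hε : 0 < ε) : ∃ (A : Finset M) (m : M → 𝕜), ‖x - fs o A m‖ ≤ ε := by
  have h1 : x ∈ closure ((Submodule.span 𝕜 (Set.range (dlt 𝕜 M o)) : Submodule 𝕜 _) : Set _) :=
    hx
  rw [Metric.mem_closure_iff] at h1
  obtain ⟨y, hy, hd⟩ := h1 ε hε
  obtain ⟨c, hc⟩ := (Finsupp.mem_span_range_iff_exists_finsupp).1 hy
  refine ⟨c.support, c, ?_⟩
  rw [dist_eq_norm] at hd
  have : fs o c.support c = y := by
    rw [← hc]
    rfl
  rw [this]
  exact hd.le

/-- The main statement: along every free ultrafilter a bounded sequence with small weak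
oscillation is close to a fixed element of the free space. -/
theorem core (o : M) (s : ℝ) (hs : 0 < s) (hsep : ∀ x y : M, x ≠ y → s ≤ dist x y)
    (U : Ultrafilter ℕ) (hU : (U : Filter ℕ) ≤ atTop) (x : ℕ → FreeSp 𝕜 M o) (B : ℝ)
    (hB : ∀ n, ‖x n‖ ≤ B) (δ : ℝ)
    (hosc : ∀ f : StrongDual 𝕜 (FreeSp 𝕜 M o), ‖f‖ ≤ 1 → ∀ ε : ℝ, 0 < ε → ∃ n : ℕ, ∀ k, n ≤ k →
      ∀ l, n ≤ l → ‖f (x k) - f (x l)‖ ≤ δ + ε) (ε : ℝ) (hε : 0 < ε) :
    ∃ y : FreeSp 𝕜 M o, ∀ᶠ l in (U : Filter ℕ), ‖x l - y‖ ≤ 27 * δ + ε := by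
  have happ : ∀ l : ℕ, ∃ (A : Finset M) (m : M → 𝕜),
      ‖SubSp.inc (LFree 𝕜 M o) (x l) - fs o A m‖ ≤ 1 / ((l : ℝ) + 1) := fun l =>
    approx_fs o _ (x l).2 _ (by positivity)
  choose A m hAm using happ
  have hbd : ∀ l, ∀ f : M → 𝕜, Lp o 1 f → ‖pr (A l) (m l) f‖ ≤ B + 1 := by
    intro l f hf
    set F : Lip0 𝕜 M o := Lip0.mk f hf.1 1 zero_le_one hf.2 with hF
    have hF1 : ‖F‖ ≤ 1 := Lip0.norm_le' _ zero_le_one hf.2
    have h1 : pr (A l) (m l) f = SubSp.inc (LFree 𝕜 M o) (x l) F -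
        (SubSp.inc (LFree 𝕜 M o) (x l) - fs o (A l) (m l)) F := by
      rw [sub_apply, fs_apply, sub_sub_cancel]
      rfl
    rw [h1]
    have h2 : ‖SubSp.inc (LFree 𝕜 M o) (x l) F‖ ≤ B :=
      ((SubSp.inc (LFree 𝕜 M o) (x l)).le_opNorm F).trans (by
        have h3 := hB l
        have h4 : ‖SubSp.inc (LFree 𝕜 M o) (x l)‖ ≤ B := h3
        have h5 : 0 ≤ ‖SubSp.inc (LFree 𝕜 M o) (x l)‖ := norm_nonneg _
        nlinarith [norm_nonneg F])
    have h3 : ‖(SubSp.inc (LFree 𝕜 M o) (x l) - fs o (A l) (m l)) F‖ ≤ 1 := by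
      refine (ContinuousLinearMap.le_opNorm _ F).trans ?_
      have h4 : (1 : ℝ) / ((l : ℝ) + 1) ≤ 1 := by
        rw [div_le_one (by positivity)]
        linarith [Nat.cast_nonneg (α := ℝ) l]
      have h5 := (hAm l).trans h4
      have h6 : 0 ≤ ‖SubSp.inc (LFree 𝕜 M o) (x l) - fs o (A l) (m l)‖ := norm_nonneg _
      nlinarith [norm_nonneg F]
    exact (norm_sub_le _ _).trans (add_le_add h2 h3)
  have hoscA : Osc o A m δ := by
    intro f hf e he
    set F : Lip0 𝕜 M o := Lip0.mk f hf.1 1 zero_le_one hf.2 with hF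
    have hF1 : ‖F‖ ≤ 1 := Lip0.norm_le' _ zero_le_one hf.2
    set φ : StrongDual 𝕜 (FreeSp 𝕜 M o) :=
      LinearMap.mkContinuous
        { toFun := fun z => SubSp.inc (LFree 𝕜 M o) z F
          map_add' := fun z w => by rw [map_add]; rfl
          map_smul' := fun c z => by rw [map_smul]; rfl } ‖F‖ (fun z => by
            rw [mul_comm]
            exact (SubSp.inc (LFree 𝕜 M o) z).le_opNorm F) with hφ
    have hφ1 : ‖φ‖ ≤ 1 := (LinearMap.mkContinuous_norm_le _ (norm_nonneg _) _).trans hF1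
    obtain ⟨n1, hn1⟩ := hosc φ hφ1 (e / 2) (by positivity)
    obtain ⟨n2, hn2⟩ := exists_nat_gt (4 / e)
    refine ⟨max n1 n2, fun k hk l hl => ?_⟩
    have h1 := hn1 k (le_of_max_le_left hk) l (le_of_max_le_left hl)
    change ‖SubSp.inc (LFree 𝕜 M o) (x k) F - SubSp.inc (LFree 𝕜 M o) (x l) F‖ ≤ _ at h1
    have small : ∀ j, n2 ≤ j → ‖SubSp.inc (LFree 𝕜 M o) (x j) F - pr (A j) (m j) f‖ ≤
        e / 4 := by
      intro j hj
      have h2 : SubSp.inc (LFree 𝕜 M o) (x j) F - pr (A j) (m j) f =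
          (SubSp.inc (LFree 𝕜 M o) (x j) - fs o (A j) (m j)) F := by
        rw [sub_apply, fs_apply]
        rfl
      rw [h2]
      refine (ContinuousLinearMap.le_opNorm _ F).trans ?_
      have h3 : (1 : ℝ) / ((j : ℝ) + 1) ≤ e / 4 := by
        rw [div_le_iff₀ (by positivity)]
        have h4 : (n2 : ℝ) ≤ j := by exact_mod_cast hj
        have h5 : 4 / e < j + 1 := by linarith
        rw [div_lt_iff₀ he] at h5
        linarith
      have h5 := (hAm j).trans h3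
      have h6 : 0 ≤ ‖SubSp.inc (LFree 𝕜 M o) (x j) - fs o (A j) (m j)‖ := norm_nonneg _
      nlinarith [norm_nonneg F]
    have h2 := small k (le_of_max_le_right hk)
    have h3 := small l (le_of_max_le_right hl)
    have h4 : pr (A k) (m k) f - pr (A l) (m l) f =
        (SubSp.inc (LFree 𝕜 M o) (x k) F - SubSp.inc (LFree 𝕜 M o) (x l) F) -
        (SubSp.inc (LFree 𝕜 M o) (x k) F - pr (A k) (m k) f) +
        (SubSp.inc (LFree 𝕜 M o) (x l) F - pr (A l) (m l) f) := by ring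
    rw [h4]
    refine (norm_add_le _ _).trans ((add_le_add (norm_sub_le _ _) le_rfl).trans ?_)
    linarith
  obtain ⟨y, hy, hev⟩ := core_fin o s hs hsep U hU A m (B + 1) hbd δ hoscA (ε / 2)
    (by positivity)
  obtain ⟨n2, hn2⟩ := exists_nat_gt (2 / ε)
  refine ⟨⟨y, hy⟩, ?_⟩
  filter_upwards [hev, hU (Filter.eventually_ge_atTop n2)] with l h1 h2
  change ‖SubSp.inc (LFree 𝕜 M o) (x l) - y‖ ≤ _
  have h3 : (1 : ℝ) / ((l : ℝ) + 1) ≤ ε / 2 := by
    rw [div_le_iff₀ (by positivity)]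
    have h4 : (n2 : ℝ) ≤ l := by exact_mod_cast h2
    have h5 : 2 / ε < l + 1 := by linarith
    rw [div_lt_iff₀ hε] at h5
    linarith
  have h4 := (hAm l).trans h3
  have h5 : SubSp.inc (LFree 𝕜 M o) (x l) - y =
      (SubSp.inc (LFree 𝕜 M o) (x l) - fs o (A l) (m l)) + (fs o (A l) (m l) - y) := by
    abel
  rw [h5]
  refine (norm_add_le _ _).trans ?_
  linarith

end Pool.Agent.K9h74.LF
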