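import Mathlib

/-!
Lipschitz-free spaces over `𝕜 = ℝ` or `ℂ`, and the quantities measuring weak Cauchyness, norm
Cauchyness and weak non-compactness of bounded sequences in Banach spaces.
-/

set_option autoImplicit false

noncomputable section

namespace Pool.Agent.K9h74.LF

open Set Filter Topology
open scoped ENNReal

universe u v

/-- The vector space of `𝕜`-valued Lipschitz functions on `M` vanishing at the base point `o`. -/
def lipSub (𝕜 : Type v) [RCLike 𝕜] (M : Type u) [MetricSpace M] (o : M) :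
    Submodule 𝕜 (M → 𝕜) where
  carrier := {f | f o = 0 ∧ ∃ K : ℝ, 0 ≤ K ∧ ∀ x y, ‖f x - f y‖ ≤ K * dist x y}
  zero_mem' := ⟨rfl, 0, le_rfl, fun x y => by simp⟩
  add_mem' := by
    rintro f g ⟨hf, K, hK, hfK⟩ ⟨hg, L, hL, hgL⟩
    refine ⟨by simp [hf, hg], K + L, by positivity, fun x y => ?_⟩
    have h1 := hfK x y
    have h2 := hgL x y
    have : (f + g) x - (f + g) y = (f x - f y) + (g x - g y) := by
      simp only [Pi.add_apply]; ring
    rw [this]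
    calc _ ≤ ‖f x - f y‖ + ‖g x - g y‖ := norm_add_le _ _
      _ ≤ _ := by rw [add_mul]; exact add_le_add h1 h2
  smul_mem' := by
    rintro c f ⟨hf, K, hK, hfK⟩
    refine ⟨by simp [hf], ‖c‖ * K, by positivity, fun x y => ?_⟩
    have h1 := hfK x y
    have : (c • f) x - (c • f) y = c * (f x - f y) := by
      simp only [Pi.smul_apply, smul_eq_mul]; ring
    rw [this, norm_mul, mul_assoc]
    exact mul_le_mul_of_nonneg_left h1 (norm_nonneg _)

/-- `Lip0 𝕜 M o`: the space of `𝕜`-valued Lipschitz functions on `M` vanishing at `o`, normed by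
the least Lipschitz constant. -/
def Lip0 (𝕜 : Type v) [RCLike 𝕜] (M : Type u) [MetricSpace M] (o : M) : Type (max u v) :=
  ↥(lipSub 𝕜 M o)

variable {𝕜 : Type v} [RCLike 𝕜] {M : Type u} [MetricSpace M] {o : M}

/-- The underlying function. -/
def Lip0.fn (f : Lip0 𝕜 M o) : M → 𝕜 := f.1

section raw

/-- pointwise addition -/
local instance lipACG : AddCommGroup (Lip0 𝕜 M o) := Submodule.addCommGroup (lipSub 𝕜 M o)
/-- pointwise scalar multiplication -/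
local instance lipMod : Module 𝕜 (Lip0 𝕜 M o) := Submodule.module (lipSub 𝕜 M o)

/-- The norm: the least Lipschitz constant. -/
instance : Norm (Lip0 𝕜 M o) :=
  ⟨fun f => sInf {K : ℝ | 0 ≤ K ∧ ∀ x y, ‖f.fn x - f.fn y‖ ≤ K * dist x y}⟩

theorem Lip0.ext {f g : Lip0 𝕜 M o} (h : ∀ x, f.fn x = g.fn x) : f = g :=
  Subtype.ext (funext h)

theorem Lip0.fn_add' (f g : Lip0 𝕜 M o) (x : M) : (f + g).fn x = f.fn x + g.fn x := rfl
theorem Lip0.fn_smul' (c : 𝕜) (f : Lip0 𝕜 M o) (x : M) : (c • f).fn x = c * f.fn x := rfl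
theorem Lip0.fn_zero' (x : M) : (0 : Lip0 𝕜 M o).fn x = 0 := rfl
@[simp] theorem Lip0.fn_base (f : Lip0 𝕜 M o) : f.fn o = 0 := f.2.1

/-- Constructor. -/
def Lip0.mk (f : M → 𝕜) (h0 : f o = 0) (K : ℝ) (hK : 0 ≤ K)
    (h : ∀ x y, ‖f x - f y‖ ≤ K * dist x y) : Lip0 𝕜 M o := ⟨f, h0, K, hK, h⟩

@[simp] theorem Lip0.fn_mk (f : M → 𝕜) (h0 : f o = 0) (K : ℝ) (hK : 0 ≤ K)
    (h : ∀ x y, ‖f x - f y‖ ≤ K * dist x y) (x : M) :
    (Lip0.mk f h0 K hK h).fn x = f x := rfl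

theorem Lip0.set_nonempty (f : Lip0 𝕜 M o) :
    {K : ℝ | 0 ≤ K ∧ ∀ x y, ‖f.fn x - f.fn y‖ ≤ K * dist x y}.Nonempty := by
  obtain ⟨K, hK, h⟩ := f.2.2
  exact ⟨K, hK, h⟩

theorem Lip0.norm_def (f : Lip0 𝕜 M o) :
    ‖f‖ = sInf {K : ℝ | 0 ≤ K ∧ ∀ x y, ‖f.fn x - f.fn y‖ ≤ K * dist x y} := rfl

theorem Lip0.norm_le' (f : Lip0 𝕜 M o) {K : ℝ} (hK : 0 ≤ K)
    (h : ∀ x y, ‖f.fn x - f.fn y‖ ≤ K * dist x y) : ‖f‖ ≤ K :=
  csInf_le ⟨0, fun _ h => h.1⟩ ⟨hK, h⟩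

theorem Lip0.norm_nonneg' (f : Lip0 𝕜 M o) : 0 ≤ ‖f‖ :=
  le_csInf f.set_nonempty fun _ h => h.1

theorem Lip0.norm_sub_le' (f : Lip0 𝕜 M o) (x y : M) :
    ‖f.fn x - f.fn y‖ ≤ ‖f‖ * dist x y := by
  rcases eq_or_ne x y with rfl | hxy
  · simp
  · have hd : 0 < dist x y := dist_pos.2 hxy
    rw [← div_le_iff₀ hd]
    refine le_csInf f.set_nonempty ?_
    rintro K ⟨_, hK⟩
    rw [div_le_iff₀ hd]
    exact hK x y

theorem Lip0.core : NormedSpace.Core 𝕜 (Lip0 𝕜 M o) where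
  norm_nonneg f := f.norm_nonneg'
  norm_smul c f := by
    apply le_antisymm
    · refine Lip0.norm_le' _ (mul_nonneg (norm_nonneg _) f.norm_nonneg') fun x y => ?_
      have h1 := f.norm_sub_le' x y
      have : (c • f).fn x - (c • f).fn y = c * (f.fn x - f.fn y) := by
        simp only [Lip0.fn_smul']; ring
      rw [this, norm_mul, mul_assoc]
      exact mul_le_mul_of_nonneg_left h1 (norm_nonneg _)
    · rcases eq_or_ne c 0 with rfl | hc
      · simp only [norm_zero, zero_mul]; exact Lip0.norm_nonneg' _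
      · have hc' : 0 < ‖c‖ := norm_pos_iff.2 hc
        rw [← le_div_iff₀' hc']
        refine Lip0.norm_le' _ (div_nonneg (Lip0.norm_nonneg' _) hc'.le) fun x y => ?_
        have h1 := (c • f).norm_sub_le' x y
        have : (c • f).fn x - (c • f).fn y = c * (f.fn x - f.fn y) := by
          simp only [Lip0.fn_smul']; ring
        rw [this, norm_mul] at h1
        rw [div_mul_eq_mul_div, le_div_iff₀ hc', mul_comm]
        exact h1
  norm_triangle f g := by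
    refine Lip0.norm_le' _ (add_nonneg f.norm_nonneg' g.norm_nonneg') fun x y => ?_
    have h1 := f.norm_sub_le' x y
    have h2 := g.norm_sub_le' x y
    have : (f + g).fn x - (f + g).fn y = (f.fn x - f.fn y) + (g.fn x - g.fn y) := by
      simp only [Lip0.fn_add']; ring
    rw [this]
    calc _ ≤ ‖f.fn x - f.fn y‖ + ‖g.fn x - g.fn y‖ := norm_add_le _ _
      _ ≤ _ := by rw [add_mul]; exact add_le_add h1 h2
  norm_eq_zero_iff f := by
    constructor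
    · intro h
      apply Lip0.ext
      intro x
      have h1 := f.norm_sub_le' x o
      rw [h, zero_mul, Lip0.fn_base, sub_zero] at h1
      exact norm_le_zero_iff.1 h1
    · rintro rfl
      apply le_antisymm _ (Lip0.norm_nonneg' _)
      refine Lip0.norm_le' _ le_rfl fun x y => by simp [Lip0.fn_zero']

instance : NormedAddCommGroup (Lip0 𝕜 M o) :=
  NormedAddCommGroup.ofCore (Lip0.core (𝕜 := 𝕜) (M := M) (o := o))
instance : NormedSpace 𝕜 (Lip0 𝕜 M o) :=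
  NormedSpace.ofCore (Lip0.core (𝕜 := 𝕜) (M := M) (o := o))

end raw

@[simp] theorem Lip0.fn_add (f g : Lip0 𝕜 M o) (x : M) : (f + g).fn x = f.fn x + g.fn x := rfl
@[simp] theorem Lip0.fn_sub (f g : Lip0 𝕜 M o) (x : M) : (f - g).fn x = f.fn x - g.fn x := rfl
@[simp] theorem Lip0.fn_neg (f : Lip0 𝕜 M o) (x : M) : (-f).fn x = - f.fn x := rfl
@[simp] theorem Lip0.fn_smul (c : 𝕜) (f : Lip0 𝕜 M o) (x : M) : (c • f).fn x = c * f.fn x := rfl
@[simp] theorem Lip0.fn_zero (x : M) : (0 : Lip0 𝕜 M o).fn x = 0 := rfl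

theorem Lip0.norm_fn_le (f : Lip0 𝕜 M o) (x : M) : ‖f.fn x‖ ≤ ‖f‖ * dist x o := by
  have := f.norm_sub_le' x o
  rwa [Lip0.fn_base, sub_zero] at this

/-- The evaluation functional at `x`. -/
def dlt (𝕜 : Type v) [RCLike 𝕜] (M : Type u) [MetricSpace M] (o : M) (x : M) :
    StrongDual 𝕜 (Lip0 𝕜 M o) :=
  LinearMap.mkContinuous
    { toFun := fun f => f.fn x
      map_add' := fun _ _ => rfl
      map_smul' := fun _ _ => rfl } (dist x o) (fun f => by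
        rw [mul_comm]
        exact f.norm_fn_le x)

@[simp] theorem dlt_apply (x : M) (f : Lip0 𝕜 M o) : dlt 𝕜 M o x f = f.fn x := rfl

/-- The Lipschitz-free space: the closed linear span of the evaluation functionals in the dual of
`Lip0`. -/
def LFree (𝕜 : Type v) [RCLike 𝕜] (M : Type u) [MetricSpace M] (o : M) :
    Submodule 𝕜 (StrongDual 𝕜 (Lip0 𝕜 M o)) :=
  (Submodule.span 𝕜 (Set.range (dlt 𝕜 M o))).topologicalClosure

theorem dlt_mem (x : M) : dlt 𝕜 M o x ∈ LFree 𝕜 M o :=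
  Submodule.le_topologicalClosure _ (Submodule.subset_span ⟨x, rfl⟩)

/-- A subspace of the dual of `Lip0` as a normed space. -/
def SubSp (S : Submodule 𝕜 (StrongDual 𝕜 (Lip0 𝕜 M o))) : Type (max u v) := ↥S

instance (S : Submodule 𝕜 (StrongDual 𝕜 (Lip0 𝕜 M o))) : NormedAddCommGroup (SubSp S) :=
  Submodule.normedAddCommGroup S
instance (S : Submodule 𝕜 (StrongDual 𝕜 (Lip0 𝕜 M o))) : NormedSpace 𝕜 (SubSp S) :=
  Submodule.normedSpace S

/-- The inclusion of a subspace. -/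
def SubSp.inc (S : Submodule 𝕜 (StrongDual 𝕜 (Lip0 𝕜 M o))) :
    SubSp S →ₗ[𝕜] StrongDual 𝕜 (Lip0 𝕜 M o) := S.subtype

theorem SubSp.norm_inc {S : Submodule 𝕜 (StrongDual 𝕜 (Lip0 𝕜 M o))} (x : SubSp S) :
    ‖SubSp.inc S x‖ = ‖x‖ := rfl

theorem SubSp.inc_mem {S : Submodule 𝕜 (StrongDual 𝕜 (Lip0 𝕜 M o))} (x : SubSp S) :
    SubSp.inc S x ∈ S := x.2

/-- The Lipschitz-free space `F(M)`, as a normed space over `𝕜`. -/
abbrev FreeSp (𝕜 : Type v) [RCLike 𝕜] (M : Type u) [MetricSpace M] (o : M) : Type (max u v) :=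
  SubSp (LFree 𝕜 M o)

/-! ### Quantities for sequences in a normed space -/

section seqs

variable (𝕜) {X : Type u} [NormedAddCommGroup X] [NormedSpace 𝕜 X]

/-- `δ(x_n) = sup_{‖f‖ ≤ 1} inf_n sup_{k, l ≥ n} |f(x_k) - f(x_l)|`. -/
def wosc (x : ℕ → X) : ℝ≥0∞ :=
  ⨆ (f : StrongDual 𝕜 X) (_ : ‖f‖ ≤ 1), ⨅ n : ℕ, ⨆ (k : ℕ) (_ : n ≤ k) (l : ℕ) (_ : n ≤ l),
    ‖f (x k) - f (x l)‖ₑ

omit [NormedSpace 𝕜 X] in
/-- `ca(x_n) = inf_n sup_{k, l ≥ n} ‖x_k - x_l‖`. -/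
def ca (x : ℕ → X) : ℝ≥0∞ :=
  ⨅ n : ℕ, ⨆ (k : ℕ) (_ : n ≤ k) (l : ℕ) (_ : n ≤ l), ‖x k - x l‖ₑ

/-- The set of weak* cluster points in the bidual `X**` of the sequence `(y_k)`. -/
def clust (y : ℕ → X) : Set (StrongDual 𝕜 (StrongDual 𝕜 X)) :=
  {z | MapClusterPt (StrongDual.toWeakDual z) atTop
    (fun n => StrongDual.toWeakDual (NormedSpace.inclusionInDoubleDual 𝕜 X (y n)))}

/-- The distance in `X**` from `z` to (the canonical image of) `X`. -/
def distX (z : StrongDual 𝕜 (StrongDual 𝕜 X)) : ℝ≥0∞ :=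
  ⨅ y : X, ‖z - NormedSpace.inclusionInDoubleDual 𝕜 X y‖ₑ

/-- `wck_X(x_n)`: the supremum over all subsequences `(y_k)` of `(x_n)` of the infimum of the
distances to `X` of the weak* cluster points of `(y_k)` in `X**`. -/
def wck (x : ℕ → X) : ℝ≥0∞ :=
  ⨆ (φ : ℕ → ℕ) (_ : StrictMono φ), ⨅ z ∈ clust 𝕜 (x ∘ φ), distX 𝕜 z

/-- `X` is `c`-weakly sequentially complete: `wck_X(x_n) ≤ c δ(x_n)` for all bounded sequences. -/
def IsWsc (X : Type u) [NormedAddCommGroup X] [NormedSpace 𝕜 X] (c : ℝ≥0∞) : Prop :=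
  ∀ x : ℕ → X, (∃ B : ℝ, ∀ n, ‖x n‖ ≤ B) → wck 𝕜 x ≤ c * wosc 𝕜 x

/-- `X` has the `c`-Schur property: `ca(x_n) ≤ c δ(x_n)` for all bounded sequences. -/
def IsSchur (X : Type u) [NormedAddCommGroup X] [NormedSpace 𝕜 X] (c : ℝ≥0∞) : Prop :=
  ∀ x : ℕ → X, (∃ B : ℝ, ∀ n, ‖x n‖ ≤ B) → ca x ≤ c * wosc 𝕜 x

end seqs

end Pool.Agent.K9h74.LF
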