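import Pool.Agent.K9h74.LF.Def

/-!
The combinatorial part: oscillation of finitely supported measures against Lipschitz functions.
-/

set_option autoImplicit false

noncomputable section

namespace Pool.Agent.K9h74.LF

open Set Filter Topology

universe u v

variable {𝕜 : Type v} [RCLike 𝕜] {M : Type u} [MetricSpace M]

set_option linter.unusedSectionVars false

/-- `f` vanishes at `o` and is Lipschitz with constant `K`. -/
def Lp (o : M) (K : ℝ) (f : M → 𝕜) : Prop :=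
  f o = 0 ∧ ∀ x y, ‖f x - f y‖ ≤ K * dist x y

/-- pairing of a finitely supported measure with a function -/
def pr (A : Finset M) (m : M → 𝕜) (f : M → 𝕜) : 𝕜 := ∑ p ∈ A, m p * f p

theorem pr_add (A : Finset M) (m f g : M → 𝕜) :
    pr A m (fun p => f p + g p) = pr A m f + pr A m g := by
  simp only [pr, mul_add, Finset.sum_add_distrib]

theorem pr_sub (A : Finset M) (m f g : M → 𝕜) :
    pr A m (fun p => f p - g p) = pr A m f - pr A m g := by
  simp only [pr, mul_sub, Finset.sum_sub_distrib]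

theorem pr_smul (A : Finset M) (m f : M → 𝕜) (c : 𝕜) :
    pr A m (fun p => c * f p) = c * pr A m f := by
  simp only [pr, Finset.mul_sum]
  exact Finset.sum_congr rfl fun p _ => by ring

theorem pr_sum {ι : Type} (A : Finset M) (m : M → 𝕜) (J : Finset ι) (c : ι → 𝕜)
    (g : ι → M → 𝕜) :
    pr A m (fun p => ∑ i ∈ J, c i * g i p) = ∑ i ∈ J, c i * pr A m (g i) := by
  simp only [pr, Finset.mul_sum]
  rw [Finset.sum_comm]
  exact Finset.sum_congr rfl fun p _ => Finset.sum_congr rfl fun i _ => by ring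

theorem pr_congr (A : Finset M) (m f g : M → 𝕜) (h : ∀ p ∈ A, f p = g p) :
    pr A m f = pr A m g :=
  Finset.sum_congr rfl fun p hp => by rw [h p hp]

theorem Lp.mono {o : M} {K L : ℝ} {f : M → 𝕜} (h : Lp o K f) (hKL : K ≤ L) : Lp o L f :=
  ⟨h.1, fun x y => (h.2 x y).trans (mul_le_mul_of_nonneg_right hKL dist_nonneg)⟩

theorem Lp.add {o : M} {K L : ℝ} {f g : M → 𝕜} (hf : Lp o K f) (hg : Lp o L g) :
    Lp o (K + L) (fun p => f p + g p) := by
  refine ⟨by simp [hf.1, hg.1], fun x y => ?_⟩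
  have h1 := hf.2 x y
  have h2 := hg.2 x y
  have : f x + g x - (f y + g y) = (f x - f y) + (g x - g y) := by ring
  rw [this]
  calc _ ≤ ‖f x - f y‖ + ‖g x - g y‖ := norm_add_le _ _
    _ ≤ _ := by rw [add_mul]; exact add_le_add h1 h2

theorem Lp.sub {o : M} {K L : ℝ} {f g : M → 𝕜} (hf : Lp o K f) (hg : Lp o L g) :
    Lp o (K + L) (fun p => f p - g p) := by
  refine ⟨by simp [hf.1, hg.1], fun x y => ?_⟩
  have h1 := hf.2 x y
  have h2 := hg.2 x y
  have : f x - g x - (f y - g y) = (f x - f y) - (g x - g y) := by ring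
  rw [this]
  calc _ ≤ ‖f x - f y‖ + ‖g x - g y‖ := norm_sub_le _ _
    _ ≤ _ := by rw [add_mul]; exact add_le_add h1 h2

theorem Lp.smul {o : M} {K : ℝ} {f : M → 𝕜} (hf : Lp o K f) (c : 𝕜) :
    Lp o (‖c‖ * K) (fun p => c * f p) := by
  refine ⟨by simp [hf.1], fun x y => ?_⟩
  rw [← mul_sub, norm_mul, mul_assoc]
  exact mul_le_mul_of_nonneg_left (hf.2 x y) (norm_nonneg _)

/-- the conjugate phase -/
def ph (a : 𝕜) : 𝕜 := if a = 0 then 1 else (starRingEnd 𝕜 a) / ((‖a‖ : ℝ) : 𝕜)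

theorem norm_ph (a : 𝕜) : ‖ph a‖ = 1 := by
  unfold ph
  split_ifs with h
  · simp
  · rw [norm_div, RCLike.norm_conj, RCLike.norm_ofReal, abs_norm]
    exact div_self (norm_ne_zero_iff.2 h)

theorem ph_mul (a : 𝕜) : ph a * a = ((‖a‖ : ℝ) : 𝕜) := by
  unfold ph
  split_ifs with h
  · simp [h]
  · have h0 : ((‖a‖ : ℝ) : 𝕜) ≠ 0 := by
      rw [Ne, RCLike.ofReal_eq_zero]
      exact norm_ne_zero_iff.2 h
    rw [div_mul_eq_mul_div, RCLike.conj_mul, sq, mul_div_assoc, div_self h0, mul_one]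

/-- extension of `𝕜`-valued Lipschitz functions -/
theorem ext_lemma (S : Set M) (f : M → 𝕜) (K : ℝ) (hK : 0 ≤ K)
    (h : ∀ x ∈ S, ∀ y ∈ S, ‖f x - f y‖ ≤ K * dist x y) :
    ∃ g : M → 𝕜, (∀ x y, ‖g x - g y‖ ≤ 2 * K * dist x y) ∧ ∀ x ∈ S, g x = f x := by
  have h1 : LipschitzOnWith ⟨K, hK⟩ (fun x => RCLike.re (f x)) S := by
    refine LipschitzOnWith.of_dist_le_mul fun x hx y hy => ?_
    rw [Real.dist_eq, ← map_sub]
    exact (RCLike.abs_re_le_norm _).trans (h x hx y hy)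
  have h2 : LipschitzOnWith ⟨K, hK⟩ (fun x => RCLike.im (f x)) S := by
    refine LipschitzOnWith.of_dist_le_mul fun x hx y hy => ?_
    rw [Real.dist_eq, ← map_sub]
    exact (RCLike.abs_im_le_norm _).trans (h x hx y hy)
  obtain ⟨g1, hg1, e1⟩ := h1.extend_real
  obtain ⟨g2, hg2, e2⟩ := h2.extend_real
  refine ⟨fun x => (g1 x : 𝕜) + (g2 x : 𝕜) * RCLike.I, fun x y => ?_, fun x hx => ?_⟩
  · have a1 := hg1.dist_le_mul x y
    have a2 := hg2.dist_le_mul x y
    rw [Real.dist_eq] at a1 a2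
    change |g1 x - g1 y| ≤ K * dist x y at a1
    change |g2 x - g2 y| ≤ K * dist x y at a2
    have : (g1 x : 𝕜) + (g2 x : 𝕜) * RCLike.I - ((g1 y : 𝕜) + (g2 y : 𝕜) * RCLike.I)
        = ((g1 x - g1 y : ℝ) : 𝕜) + ((g2 x - g2 y : ℝ) : 𝕜) * RCLike.I := by
      push_cast; ring
    rw [this]
    calc _ ≤ ‖((g1 x - g1 y : ℝ) : 𝕜)‖ + ‖((g2 x - g2 y : ℝ) : 𝕜) * RCLike.I‖ := norm_add_le _ _
      _ ≤ |g1 x - g1 y| + |g2 x - g2 y| := by
          rw [norm_mul, RCLike.norm_ofReal, RCLike.norm_ofReal]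
          have : ‖(RCLike.I : 𝕜)‖ ≤ 1 := by
            rcases eq_or_ne (RCLike.I : 𝕜) 0 with hI | hI
            · rw [hI, norm_zero]; exact zero_le_one
            · rw [RCLike.norm_I_of_ne_zero hI]
          nlinarith [abs_nonneg (g2 x - g2 y), abs_nonneg (g1 x - g1 y)]
      _ ≤ K * dist x y + K * dist x y := add_le_add a1 a2
      _ = _ := by ring
  · have e1' := e1 hx
    have e2' := e2 hx
    simp only at e1' e2'
    simp only [← e1', ← e2']
    exact RCLike.re_add_im _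

/-- existence of limits along ultrafilters -/
theorem ulim (U : Ultrafilter ℕ) {E : Type*} [NormedAddCommGroup E] [ProperSpace E] (g : ℕ → E)
    (B : ℝ) (h : ∀ l, ‖g l‖ ≤ B) : ∃ L : E, Tendsto g U (𝓝 L) := by
  have hc : IsCompact (Metric.closedBall (0 : E) B) := isCompact_closedBall 0 B
  have : (U.map g : Filter E) ≤ 𝓟 (Metric.closedBall (0 : E) B) := by
    rw [le_principal_iff]
    refine Filter.mem_map.2 (Filter.univ_mem' fun l => ?_)
    simpa using h l
  obtain ⟨L, _, hL⟩ := hc.ultrafilter_le_nhds (U.map g) this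
  exact ⟨L, hL⟩

/-- The oscillation of `(μ_l)` against Lipschitz functions with constant one is at most `δ`. -/
def Osc (o : M) (A : ℕ → Finset M) (m : ℕ → M → 𝕜) (δ : ℝ) : Prop :=
  ∀ f : M → 𝕜, Lp o 1 f → ∀ ε : ℝ, 0 < ε → ∃ n : ℕ, ∀ k, n ≤ k → ∀ l, n ≤ l →
    ‖pr (A k) (m k) f - pr (A l) (m l) f‖ ≤ δ + ε

theorem Lp.norm_le_infDist {o : M} {h : M → 𝕜} (hh : Lp o 1 h) (T : Finset M) (hT : o ∈ T)
    (h0 : ∀ t ∈ T, h t = 0) (p : M) : ‖h p‖ ≤ Metric.infDist p (T : Set M) := by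
  refine (Metric.le_infDist ⟨o, hT⟩).2 fun t ht => ?_
  have := hh.2 p t
  rwa [h0 t ht, sub_zero, one_mul] at this

/-- The case of bounded first moments. -/
theorem bdd_step (o : M) (U : Ultrafilter ℕ) (hU : (U : Filter ℕ) ≤ atTop) (A : ℕ → Finset M)
    (m : ℕ → M → 𝕜) (W : ℝ) (hW : ∀ l, ∑ p ∈ A l, ‖m l p‖ * dist p o ≤ W) (δ : ℝ)
    (hosc : Osc o A m δ) (ε : ℝ) (hε : 0 < ε) :
    ∃ T : Finset M, o ∈ T ∧ ∀ᶠ l in (U : Filter ℕ), ∀ h : M → 𝕜, Lp o 1 h → (∀ t ∈ T, h t = 0) →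
      ‖pr (A l) (m l) h‖ ≤ 5 * δ + ε := by
  classical
  set d : Finset M → M → ℝ := fun T p => Metric.infDist p (T : Set M) with hd
  have d_nonneg : ∀ T p, 0 ≤ d T p := fun T p => Metric.infDist_nonneg
  set mt : Finset M → ℕ → ℝ := fun T l => ∑ p ∈ A l, ‖m l p‖ * d T p with hmt
  have mt_nonneg : ∀ T l, 0 ≤ mt T l := fun T l =>
    Finset.sum_nonneg fun p _ => mul_nonneg (norm_nonneg _) (d_nonneg _ _)
  have mt_le : ∀ T, o ∈ T → ∀ l, mt T l ≤ W := fun T hT l =>
    (Finset.sum_le_sum fun p _ => mul_le_mul_of_nonneg_left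
      (Metric.infDist_le_dist_of_mem (by simpa using hT)) (norm_nonneg _)).trans (hW l)
  have hlim : ∀ T : {T : Finset M // o ∈ T}, ∃ L : ℝ, Tendsto (mt T.1) U (𝓝 L) := fun T => by
    apply ulim U (mt T.1) W
    intro l
    rw [Real.norm_eq_abs, abs_of_nonneg (mt_nonneg _ _)]
    exact mt_le T.1 T.2 l
  choose φ hφ using hlim
  have hφ0 : ∀ T, 0 ≤ φ T := fun T =>
    ge_of_tendsto' (hφ T) fun l => mt_nonneg _ _
  have hbdd : BddBelow (Set.range φ) := ⟨0, by rintro _ ⟨T, rfl⟩; exact hφ0 T⟩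
  have : Nonempty {T : Finset M // o ∈ T} := ⟨⟨{o}, Finset.mem_singleton_self o⟩⟩
  set η : ℝ := ε / 200 with hη
  have hη0 : 0 < η := by positivity
  obtain ⟨Ts, hTs⟩ := exists_lt_of_ciInf_lt (lt_add_of_pos_right (⨅ T, φ T) hη0)
  obtain ⟨T0, hT0⟩ := Ts
  have key1 : ∀ T : Finset M, T0 ⊆ T → ∀ᶠ l in (U : Filter ℕ), mt T0 l ≤ mt T l + 3 * η := by
    intro T hT
    have ho : o ∈ T := hT hT0
    have h1 : φ ⟨T0, hT0⟩ < φ ⟨T, ho⟩ + η :=
      hTs.trans_le (by have := ciInf_le hbdd ⟨T, ho⟩; linarith)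
    have h2 := (hφ ⟨T0, hT0⟩).eventually_lt_const
      (show φ ⟨T0, hT0⟩ < φ ⟨T0, hT0⟩ + η by linarith)
    have h3 := (hφ ⟨T, ho⟩).eventually_const_lt
      (show φ ⟨T, ho⟩ - η < φ ⟨T, ho⟩ by linarith)
    filter_upwards [h2, h3] with l h2 h3
    linarith
  refine ⟨T0, hT0, ?_⟩
  by_contra hcon
  rw [← Ultrafilter.eventually_not] at hcon
  set c : ℝ := 5 * δ + ε with hc
  -- the inductive construction
  obtain ⟨F, hP, hr⟩ := exists_seq_of_forall_finset_exists
    (fun x : ℕ × Finset M => T0 ⊆ x.2 ∧ mt T0 x.1 ≤ mt x.2 x.1 + 3 * η ∧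
      ∃ h : M → 𝕜, Lp o 1 h ∧ (∀ t ∈ T0, h t = 0) ∧ c < ‖pr (A x.1) (m x.1) h‖)
    (fun x y => x.1 < y.1 ∧ x.2 ∪ A x.1 ⊆ y.2) (by
      intro s _
      set T : Finset M := T0 ∪ s.biUnion (fun x => x.2 ∪ A x.1) with hT
      have hN : ∀ᶠ l in (U : Filter ℕ), ∀ x ∈ s, x.1 < l := by
        rw [Filter.eventually_all_finset]
        intro x _
        exact hU (Filter.eventually_gt_atTop x.1)
      obtain ⟨l, hl1, hl2, hl3⟩ := ((key1 T Finset.subset_union_left).and
        (hcon.and hN)).exists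
      push Not at hl2
      refine ⟨(l, T), ⟨Finset.subset_union_left, hl1, ?_⟩, fun x hx => ⟨hl3 x hx, ?_⟩⟩
      · obtain ⟨h, h1, h2, h3⟩ := hl2
        exact ⟨h, h1, h2, h3⟩
      · exact (Finset.subset_biUnion_of_mem (fun x : ℕ × Finset M => x.2 ∪ A x.1) hx).trans
          Finset.subset_union_right)
  choose hP1 hP2 h hh1 hh2 hh3 using hP
  have hl : StrictMono fun k => (F k).1 := fun i j hij => (hr i j hij).1
  have hA : ∀ i j, i < j → A (F i).1 ⊆ (F j).2 := fun i j hij =>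
    Finset.subset_union_right.trans (hr i j hij).2
  have hhle : ∀ k p, ‖h k p‖ ≤ d T0 p := fun k p =>
    (hh1 k).norm_le_infDist T0 hT0 (hh2 k) p
  have d_mono : ∀ k p, d (F k).2 p ≤ d T0 p := fun k p =>
    Metric.infDist_le_infDist_of_subset (by exact_mod_cast hP1 k) ⟨o, hT0⟩
  set B : ℕ → Finset M := fun k => (A (F k).1).filter (fun p => d T0 p / 2 ≤ d (F k).2 p) with hB
  set w : ℕ → 𝕜 := fun k => (-1) ^ k * ph (pr (A (F k).1) (m (F k).1) (h k)) with hw
  have hw1 : ∀ k, ‖w k‖ = 1 := fun k => by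
    simp only [hw, norm_mul, norm_pow, norm_neg, norm_one, one_pow, norm_ph, mul_one]
  set f0 : M → 𝕜 := fun p => if hp : ∃ k, p ∈ B k then
    w (Nat.find hp) * h (Nat.find hp) p / 5 else 0 with hf0
  have mem0 : ∀ p, d T0 p = 0 → p ∈ T0 := by
    intro p hp
    have : p ∈ closure (T0 : Set M) := by
      rw [Metric.mem_closure_iff_infDist_zero ⟨o, hT0⟩]
      exact hp
    rw [(T0.finite_toSet.isClosed).closure_eq] at this
    exact_mod_cast this
  have f0T : ∀ p ∈ T0, f0 p = 0 := by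
    intro p hp
    simp only [hf0]
    split_ifs with h'
    · rw [hh2 _ p hp]; simp
    · rfl
  have f0B : ∀ k, ∀ p ∈ B k, f0 p = w k * h k p / 5 := by
    intro k p hp
    have hex : ∃ k, p ∈ B k := ⟨k, hp⟩
    have hfind := Nat.find_spec hex
    have hle : Nat.find hex ≤ k := Nat.find_min' hex hp
    rcases hle.eq_or_lt with heq | hlt
    · simp only [hf0, dif_pos hex]
      rw [heq]
    · have hp1 : p ∈ A (F (Nat.find hex)).1 := (Finset.mem_filter.1 hfind).1
      have hp2 : p ∈ (F k).2 := hA _ _ hlt hp1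
      have h3 : d (F k).2 p = 0 := by
        simp only [hd]
        exact Metric.infDist_zero_of_mem (by exact_mod_cast hp2)
      have h4 := (Finset.mem_filter.1 hp).2
      rw [h3] at h4
      have h5 : d T0 p = 0 := le_antisymm (by linarith) (d_nonneg _ _)
      have h6 := mem0 p h5
      rw [f0T p h6, hh2 k p h6]; simp
  have f0le : ∀ k, ∀ p ∈ B k, ‖f0 p‖ ≤ d T0 p / 5 := by
    intro k p hp
    rw [f0B k p hp, norm_div, norm_mul, hw1, one_mul]
    have : ‖(5 : 𝕜)‖ = 5 := by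
      rw [← Nat.cast_ofNat, RCLike.norm_natCast]; norm_num
    rw [this]
    exact div_le_div_of_nonneg_right (hhle k p) (by norm_num)
  have d_lip : ∀ T : Finset M, ∀ x y, d T x ≤ dist x y + d T y := fun T x y => by
    rw [add_comm]
    exact Metric.infDist_le_infDist_add_dist
  have hlt_case : ∀ j k, j < k → ∀ x ∈ B j, ∀ y ∈ B k, ‖f0 x - f0 y‖ ≤ 1 * dist x y := by
    intro j k hjk x hx y hy
    have h1 : d (F k).2 y ≤ dist x y := by
      rw [dist_comm]
      exact Metric.infDist_le_dist_of_mem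
        (by exact_mod_cast hA j k hjk (Finset.mem_filter.1 hx).1)
    have h2 := (Finset.mem_filter.1 hy).2
    have h3 := d_lip T0 x y
    calc ‖f0 x - f0 y‖ ≤ ‖f0 x‖ + ‖f0 y‖ := norm_sub_le _ _
      _ ≤ d T0 x / 5 + d T0 y / 5 := add_le_add (f0le j x hx) (f0le k y hy)
      _ ≤ 1 * dist x y := by linarith
  have hS : ∀ x ∈ (T0 : Set M) ∪ ⋃ k, (B k : Set M), ∀ y ∈ (T0 : Set M) ∪ ⋃ k, (B k : Set M),
      ‖f0 x - f0 y‖ ≤ 1 * dist x y := by
    have aux : ∀ x ∈ T0, ∀ y ∈ (T0 : Set M) ∪ ⋃ k, (B k : Set M),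
        ‖f0 x - f0 y‖ ≤ 1 * dist x y := by
      intro x hx y hy
      rw [f0T x hx, zero_sub, norm_neg]
      rcases hy with hy | hy
      · rw [f0T y (by exact_mod_cast hy), norm_zero]; positivity
      · obtain ⟨k, hk⟩ := Set.mem_iUnion.1 hy
        have h1 := f0le k y (by exact_mod_cast hk)
        have h2 : d T0 y ≤ dist x y := by
          rw [dist_comm]
          exact Metric.infDist_le_dist_of_mem (by exact_mod_cast hx)
        have := d_nonneg T0 y
        linarith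
    intro x hx y hy
    rcases hx with hx' | hx'
    · exact aux x (by exact_mod_cast hx') y hy
    · rcases hy with hy' | hy'
      · rw [norm_sub_rev, dist_comm]
        exact aux y (by exact_mod_cast hy') x (Or.inr hx')
      · obtain ⟨j, hj⟩ := Set.mem_iUnion.1 hx'
        obtain ⟨k, hk⟩ := Set.mem_iUnion.1 hy'
        have hj : x ∈ B j := by exact_mod_cast hj
        have hk : y ∈ B k := by exact_mod_cast hk
        rcases lt_trichotomy j k with hjk | hjk | hjk
        · exact hlt_case j k hjk x hj y hk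
        · subst hjk
          rw [f0B j x hj, f0B j y hk]
          have : w j * h j x / 5 - w j * h j y / 5 = w j * (h j x - h j y) / 5 := by ring
          rw [this, norm_div, norm_mul, hw1, one_mul]
          have h5 : ‖(5 : 𝕜)‖ = 5 := by
            rw [← Nat.cast_ofNat, RCLike.norm_natCast]; norm_num
          rw [h5]
          have h1 := (hh1 j).2 x y
          have : 0 ≤ dist x y := dist_nonneg
          linarith
        · rw [norm_sub_rev, dist_comm]
          exact hlt_case k j hjk y hk x hj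
  obtain ⟨g, hg1, hg2⟩ := ext_lemma _ f0 1 zero_le_one hS
  set fe : M → 𝕜 := fun p => (1 / 2 : 𝕜) * g p with hfe
  have n2 : ‖(1 / 2 : 𝕜)‖ = 1 / 2 := by
    rw [norm_div, norm_one, ← Nat.cast_ofNat, RCLike.norm_natCast]; norm_num
  have go : g o = 0 := by
    rw [hg2 o (Or.inl (by exact_mod_cast hT0)), f0T o hT0]
  have hfe1 : Lp o 1 fe := by
    refine ⟨by simp only [hfe, go, mul_zero], fun x y => ?_⟩
    simp only [hfe]
    rw [← mul_sub, norm_mul, n2]
    have := hg1 x y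
    linarith
  have hfe0 : ∀ t ∈ T0, fe t = 0 := by
    intro t ht
    simp only [hfe]
    rw [hg2 t (Or.inl (by exact_mod_cast ht)), f0T t ht, mul_zero]
  have hfele : ∀ p, ‖fe p‖ ≤ d T0 p := hfe1.norm_le_infDist T0 hT0 hfe0
  have hfeB : ∀ k, ∀ p ∈ B k, fe p = w k / 10 * h k p := by
    intro k p hp
    simp only [hfe]
    rw [hg2 p (Or.inr (Set.mem_iUnion.2 ⟨k, by exact_mod_cast hp⟩)), f0B k p hp]
    ring
  have n10 : ‖(10 : 𝕜)‖ = 10 := by
    rw [← Nat.cast_ofNat, RCLike.norm_natCast]; norm_num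
  -- the main estimate
  have main : ∀ k, ‖pr (A (F k).1) (m (F k).1) fe -
      (-1) ^ k * ((‖pr (A (F k).1) (m (F k).1) (h k)‖ / 10 : ℝ) : 𝕜)‖ ≤ 7 * η := by
    intro k
    have e1 : (-1 : 𝕜) ^ k * ((‖pr (A (F k).1) (m (F k).1) (h k)‖ / 10 : ℝ) : 𝕜) =
        pr (A (F k).1) (m (F k).1) (fun p => w k / 10 * h k p) := by
      rw [pr_smul]
      simp only [hw]
      rw [RCLike.ofReal_div, ← ph_mul]
      push_cast
      ring
    rw [e1, ← pr_sub]
    set Bad : Finset M := (A (F k).1).filter (fun p => ¬ d T0 p / 2 ≤ d (F k).2 p) with hBad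
    have e2 : pr (A (F k).1) (m (F k).1) (fun p => fe p - w k / 10 * h k p) =
        ∑ p ∈ Bad, m (F k).1 p * (fe p - w k / 10 * h k p) := by
      simp only [pr]
      rw [← Finset.sum_filter_add_sum_filter_not (A (F k).1)
        (fun p => d T0 p / 2 ≤ d (F k).2 p)]
      rw [Finset.sum_eq_zero, zero_add]
      intro p hp
      rw [hfeB k p hp, sub_self, mul_zero]
    rw [e2]
    have e3 : ∀ p ∈ Bad, ‖m (F k).1 p * (fe p - w k / 10 * h k p)‖ ≤
        11 / 10 * (2 * (‖m (F k).1 p‖ * (d T0 p - d (F k).2 p))) := by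
      intro p hp
      have h1 : ‖fe p - w k / 10 * h k p‖ ≤ d T0 p + d T0 p / 10 := by
        refine (norm_sub_le _ _).trans (add_le_add (hfele p) ?_)
        rw [norm_mul, norm_div, hw1, n10]
        have := hhle k p
        linarith
      have h2 : d T0 p ≤ 2 * (d T0 p - d (F k).2 p) := by
        have := (Finset.mem_filter.1 hp).2
        push Not at this
        linarith
      rw [norm_mul]
      calc ‖m (F k).1 p‖ * ‖fe p - w k / 10 * h k p‖
          ≤ ‖m (F k).1 p‖ * (11 / 10 * (2 * (d T0 p - d (F k).2 p))) := by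
            refine mul_le_mul_of_nonneg_left ?_ (norm_nonneg _)
            linarith
        _ = _ := by ring
    calc ‖∑ p ∈ Bad, m (F k).1 p * (fe p - w k / 10 * h k p)‖
        ≤ ∑ p ∈ Bad, 11 / 10 * (2 * (‖m (F k).1 p‖ * (d T0 p - d (F k).2 p))) :=
          norm_sum_le_of_le _ e3
      _ ≤ ∑ p ∈ A (F k).1, 11 / 10 * (2 * (‖m (F k).1 p‖ * (d T0 p - d (F k).2 p))) := by
          refine Finset.sum_le_sum_of_subset_of_nonneg (Finset.filter_subset _ _) ?_
          intro p _ _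
          have h1 := d_mono k p
          have h2 : 0 ≤ ‖m (F k).1 p‖ * (d T0 p - d (F k).2 p) :=
            mul_nonneg (norm_nonneg _) (by linarith)
          linarith
      _ = 11 / 5 * (mt T0 (F k).1 - mt (F k).2 (F k).1) := by
          simp only [hmt]
          rw [← Finset.sum_sub_distrib, Finset.mul_sum]
          exact Finset.sum_congr rfl fun p _ => by ring
      _ ≤ 7 * η := by
          have := hP2 k
          linarith
  -- contradiction
  obtain ⟨n, hn⟩ := hosc fe hfe1 η hη0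
  have hge : ∀ k, k ≤ (F k).1 := fun k => hl.le_apply
  have h1 := hn (F (2 * n)).1 ((by omega : n ≤ 2 * n).trans (hge _))
    (F (2 * n + 1)).1 ((by omega : n ≤ 2 * n + 1).trans (hge _))
  have m1 := main (2 * n)
  have m2 := main (2 * n + 1)
  have c1 := hh3 (2 * n)
  have c2 := hh3 (2 * n + 1)
  set a := ‖pr (A (F (2 * n)).1) (m (F (2 * n)).1) (h (2 * n))‖
  set b := ‖pr (A (F (2 * n + 1)).1) (m (F (2 * n + 1)).1) (h (2 * n + 1))‖
  set x := pr (A (F (2 * n)).1) (m (F (2 * n)).1) fe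
  set y := pr (A (F (2 * n + 1)).1) (m (F (2 * n + 1)).1) fe
  have s1 : (-1 : 𝕜) ^ (2 * n) = 1 := by simp
  have s2 : (-1 : 𝕜) ^ (2 * n + 1) = -1 := by rw [pow_succ, s1]; ring
  rw [s1, one_mul] at m1
  rw [s2] at m2
  have h2 : (((a / 10 + b / 10 : ℝ)) : 𝕜) = (x - y) - (x - ((a / 10 : ℝ) : 𝕜)) +
      (y - -1 * ((b / 10 : ℝ) : 𝕜)) := by
    push_cast; ring
  have h3 : ‖(((a / 10 + b / 10 : ℝ)) : 𝕜)‖ ≤ (δ + η) + 7 * η + 7 * η := by
    rw [h2]
    exact (norm_add_le _ _).trans (add_le_add ((norm_sub_le _ _).trans (add_le_add h1 m1)) m2)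
  rw [RCLike.norm_ofReal] at h3
  have h4 := le_abs_self (a / 10 + b / 10)
  have hη' : η = ε / 200 := hη
  linarith

end Pool.Agent.K9h74.LF
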