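import Pool.Agent.K9h74.LF.Core

/-!
Quantitative weak sequential completeness and the quantitative Schur property of Lipschitz-free
spaces over uniformly separated metric spaces.
-/

set_option autoImplicit false
set_option linter.unusedSectionVars false

noncomputable section

namespace Pool.Agent.K9h74.LF

open Set Filter Topology
open scoped ENNReal

universe u v

theorem mem_cb {𝕜 : Type v} [RCLike 𝕜] {E : Type u} [NormedAddCommGroup E] [NormedSpace 𝕜 E]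
    (f : StrongDual 𝕜 E) (B : ℝ) (h : ‖f‖ ≤ B) :
    StrongDual.toWeakDual f ∈ WeakDual.toStrongDual ⁻¹' Metric.closedBall (0 : StrongDual 𝕜 E) B := by
  simpa using h

theorem wosc_real {𝕜 : Type v} [RCLike 𝕜] {X : Type u} [NormedAddCommGroup X] [NormedSpace 𝕜 X]
    (x : ℕ → X) (hD : wosc 𝕜 x ≠ ⊤) (f : StrongDual 𝕜 X) (hf : ‖f‖ ≤ 1) (ε : ℝ) (hε : 0 < ε) :
    ∃ n : ℕ, ∀ k, n ≤ k → ∀ l, n ≤ l → ‖f (x k) - f (x l)‖ ≤ (wosc 𝕜 x).toReal + ε := by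
  set δ := (wosc 𝕜 x).toReal with hδ
  have hδ0 : 0 ≤ δ := ENNReal.toReal_nonneg
  have h1 : (⨅ n : ℕ, ⨆ (k : ℕ) (_ : n ≤ k) (l : ℕ) (_ : n ≤ l), ‖f (x k) - f (x l)‖ₑ) ≤
      wosc 𝕜 x := by
    unfold wosc
    exact le_iSup₂_of_le f hf le_rfl
  have h2 : (⨅ n : ℕ, ⨆ (k : ℕ) (_ : n ≤ k) (l : ℕ) (_ : n ≤ l), ‖f (x k) - f (x l)‖ₑ) <
      ENNReal.ofReal (δ + ε) := by
    refine h1.trans_lt ?_
    rw [← ENNReal.ofReal_toReal hD]
    exact (ENNReal.ofReal_lt_ofReal_iff (by linarith)).2 (by linarith)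
  obtain ⟨n, hn⟩ := iInf_lt_iff.1 h2
  refine ⟨n, fun k hk l hl => ?_⟩
  have h3 : ‖f (x k) - f (x l)‖ₑ ≤ ENNReal.ofReal (δ + ε) := by
    refine le_trans ?_ hn.le
    exact le_iSup₂_of_le k hk (le_iSup₂_of_le l hl le_rfl)
  rw [← ofReal_norm] at h3
  exact (ENNReal.ofReal_le_ofReal_iff (by linarith)).1 h3

variable {𝕜 : Type v} [RCLike 𝕜] {M : Type u} [MetricSpace M]

theorem isWsc_free (o : M) (s : ℝ) (hs : 0 < s) (hsep : ∀ x y : M, x ≠ y → s ≤ dist x y) :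
    IsWsc 𝕜 (FreeSp 𝕜 M o) 27 := by
  rintro x ⟨B, hB⟩
  rcases eq_or_ne (wosc 𝕜 x) ⊤ with hD | hD
  · rw [hD, ENNReal.mul_top (by norm_num)]
    exact le_top
  set δ := (wosc 𝕜 x).toReal with hδ
  have hδ0 : 0 ≤ δ := ENNReal.toReal_nonneg
  have hD' : (27 : ℝ≥0∞) * wosc 𝕜 x = ENNReal.ofReal (27 * δ) := by
    rw [ENNReal.ofReal_mul (by norm_num), hδ, ENNReal.ofReal_toReal hD]
    norm_num
  rw [hD']
  unfold wck
  refine iSup₂_le fun φ hφ => ?_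
  have hosc : ∀ f : StrongDual 𝕜 (FreeSp 𝕜 M o), ‖f‖ ≤ 1 → ∀ ε : ℝ, 0 < ε → ∃ n : ℕ,
      ∀ k, n ≤ k → ∀ l, n ≤ l → ‖f ((x ∘ φ) k) - f ((x ∘ φ) l)‖ ≤ δ + ε := by
    intro f hf ε hε
    obtain ⟨n, hn⟩ := wosc_real x hD f hf ε hε
    exact ⟨n, fun k hk l hl => hn _ (hk.trans hφ.le_apply) _ (hl.trans hφ.le_apply)⟩
  set U : Ultrafilter ℕ := Filter.hyperfilter ℕ with hU'
  have hU : (U : Filter ℕ) ≤ atTop := by
    rw [← Nat.cofinite_eq_atTop]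
    exact Filter.hyperfilter_le_cofinite
  -- a cluster point along `U`
  have hcomp := WeakDual.isCompact_closedBall (𝕜 := 𝕜)
    (0 : StrongDual 𝕜 (StrongDual 𝕜 (FreeSp 𝕜 M o))) B
  set J := NormedSpace.inclusionInDoubleDual 𝕜 (FreeSp 𝕜 M o) with hJ
  set y : ℕ → WeakDual 𝕜 (StrongDual 𝕜 (FreeSp 𝕜 M o)) := fun n =>
    StrongDual.toWeakDual (J ((x ∘ φ) n)) with hy
  have hle : (U.map y : Filter _) ≤ 𝓟 (WeakDual.toStrongDual ⁻¹' Metric.closedBall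
      (0 : StrongDual 𝕜 (StrongDual 𝕜 (FreeSp 𝕜 M o))) B) := by
    rw [le_principal_iff]
    refine Filter.mem_map.2 (Filter.univ_mem' fun n => ?_)
    exact mem_cb _ _ ((NormedSpace.double_dual_bound 𝕜 (FreeSp 𝕜 M o) _).trans (hB _))
  obtain ⟨z0, _, hz0⟩ := hcomp.ultrafilter_le_nhds _ hle
  have hz0' : Tendsto y U (𝓝 z0) := hz0
  set z : StrongDual 𝕜 (StrongDual 𝕜 (FreeSp 𝕜 M o)) := WeakDual.toStrongDual z0 with hz
  have hzc : z ∈ clust 𝕜 (x ∘ φ) := by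
    change MapClusterPt z0 atTop y
    rw [mapClusterPt_iff_ultrafilter]
    exact ⟨U, hU, hz0'⟩
  refine (iInf₂_le z hzc).trans ?_
  refine ENNReal.le_of_forall_pos_le_add fun e he _ => ?_
  have he' : (0 : ℝ) < e := by exact_mod_cast he
  obtain ⟨y0, hy0⟩ := core o s hs hsep U hU (x ∘ φ) B (fun n => hB _) δ hosc e he'
  refine (iInf_le _ y0).trans ?_
  have hnorm : ‖z - J y0‖ ≤ 27 * δ + e := by
    refine opn _ _ (by positivity) fun g hg => ?_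
    have h1 : Tendsto (fun n => g ((x ∘ φ) n)) U (𝓝 (z g)) := by
      have := ((WeakDual.eval_continuous g).tendsto z0).comp hz0'
      exact this
    have h2 : Tendsto (fun n => ‖g ((x ∘ φ) n) - g y0‖) U (𝓝 ‖z g - g y0‖) :=
      (h1.sub_const _).norm
    change ‖z g - g y0‖ ≤ _
    refine le_of_tendsto h2 ?_
    filter_upwards [hy0] with n hn
    rw [← map_sub]
    refine (g.le_opNorm _).trans ?_
    have h3 : 0 ≤ ‖(x ∘ φ) n - y0‖ := norm_nonneg _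
    nlinarith [norm_nonneg g]
  rw [← ofReal_norm]
  refine (ENNReal.ofReal_le_ofReal hnorm).trans ?_
  rw [ENNReal.ofReal_add (by positivity) he'.le]
  gcongr
  exact (ENNReal.ofReal_coe_nnreal).le

theorem isSchur_free (o : M) (s : ℝ) (hs : 0 < s) (hsep : ∀ x y : M, x ≠ y → s ≤ dist x y) :
    IsSchur 𝕜 (FreeSp 𝕜 M o) 109 := by
  rintro x ⟨B, hB⟩
  rcases eq_or_ne (wosc 𝕜 x) ⊤ with hD | hD
  · rw [hD, ENNReal.mul_top (by norm_num)]
    exact le_top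
  set δ := (wosc 𝕜 x).toReal with hδ
  have hδ0 : 0 ≤ δ := ENNReal.toReal_nonneg
  have hD' : (109 : ℝ≥0∞) * wosc 𝕜 x = ENNReal.ofReal (109 * δ) := by
    rw [ENNReal.ofReal_mul (by norm_num), hδ, ENNReal.ofReal_toReal hD]
    norm_num
  rw [hD']
  refine ENNReal.le_of_forall_pos_le_add fun e he _ => ?_
  have he' : (0 : ℝ) < e := by exact_mod_cast he
  have hsum : ENNReal.ofReal (109 * δ) + (e : ℝ≥0∞) = ENNReal.ofReal (109 * δ + e) := by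
    rw [ENNReal.ofReal_add (by positivity) he'.le, ENNReal.ofReal_coe_nnreal]
  rw [hsum]
  by_contra hcon
  push Not at hcon
  have hex : ∀ n : ℕ, ∃ k, n ≤ k ∧ ∃ l, n ≤ l ∧ 109 * δ + e < ‖x k - x l‖ := by
    intro n
    have h1 : ENNReal.ofReal (109 * δ + e) <
        ⨆ (k : ℕ) (_ : n ≤ k) (l : ℕ) (_ : n ≤ l), ‖x k - x l‖ₑ :=
      hcon.trans_le (iInf_le _ n)
    simp only [lt_iSup_iff] at h1
    obtain ⟨k, hk, l, hl, h2⟩ := h1
    refine ⟨k, hk, l, hl, ?_⟩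
    rw [← ofReal_norm] at h2
    exact (ENNReal.ofReal_lt_ofReal_iff_of_nonneg (by positivity)).1 h2
  choose k hk l hl hkl using hex
  set z : ℕ → FreeSp 𝕜 M o := fun n => x (k n) - x (l n) with hz
  have hz1 : ∀ f : StrongDual 𝕜 (FreeSp 𝕜 M o), ‖f‖ ≤ 1 → ∀ ε : ℝ, 0 < ε → ∃ N : ℕ,
      ∀ n, N ≤ n → ‖f (z n)‖ ≤ δ + ε := by
    intro f hf ε hε
    obtain ⟨N, hN⟩ := wosc_real x hD f hf ε hε
    refine ⟨N, fun n hn => ?_⟩
    simp only [hz, map_sub]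
    exact hN _ (hn.trans (hk n)) _ (hn.trans (hl n))
  have hosc : ∀ f : StrongDual 𝕜 (FreeSp 𝕜 M o), ‖f‖ ≤ 1 → ∀ ε : ℝ, 0 < ε → ∃ N : ℕ,
      ∀ n, N ≤ n → ∀ m, N ≤ m → ‖f (z n) - f (z m)‖ ≤ 2 * δ + ε := by
    intro f hf ε hε
    obtain ⟨N, hN⟩ := hz1 f hf (ε / 2) (by positivity)
    refine ⟨N, fun n hn m hm => (norm_sub_le _ _).trans ?_⟩
    linarith [hN n hn, hN m hm]
  set U : Ultrafilter ℕ := Filter.hyperfilter ℕ with hU'
  have hU : (U : Filter ℕ) ≤ atTop := by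
    rw [← Nat.cofinite_eq_atTop]
    exact Filter.hyperfilter_le_cofinite
  obtain ⟨y0, hy0⟩ := core o s hs hsep U hU z (B + B)
    (fun n => (norm_sub_le _ _).trans (add_le_add (hB _) (hB _))) (2 * δ) hosc (e / 4)
    (by positivity)
  obtain ⟨g, hg1, hg2⟩ := exists_dual_vector'' 𝕜 y0
  obtain ⟨N, hN⟩ := hz1 g hg1 (e / 4) (by positivity)
  obtain ⟨n, hn1, hn2⟩ := (hy0.and (hU (Filter.eventually_ge_atTop N))).exists
  have h1 := hN n hn2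
  have h2 : ‖g (z n - y0)‖ ≤ 27 * (2 * δ) + e / 4 := by
    refine (g.le_opNorm _).trans ?_
    have h3 : 0 ≤ ‖z n - y0‖ := norm_nonneg _
    nlinarith [norm_nonneg g]
  have h3 : ‖y0‖ ≤ ‖g (z n)‖ + ‖g (z n - y0)‖ := by
    have h4 : g y0 = g (z n) - g (z n - y0) := by rw [map_sub g (z n) y0]; ring
    have h5 : ‖g y0‖ = ‖y0‖ := by
      rw [hg2, RCLike.norm_ofReal, abs_norm]
    rw [← h5, h4]
    exact norm_sub_le _ _
  have h4 : ‖z n‖ ≤ ‖z n - y0‖ + ‖y0‖ := by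
    have := norm_add_le (z n - y0) y0
    rwa [sub_add_cancel] at this
  have h5 := hkl n
  have h6 : ‖z n‖ = ‖x (k n) - x (l n)‖ := rfl
  linarith

end Pool.Agent.K9h74.LF
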