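import Pool.Agent.K9h74.LF.Fin

/-!
The escaping part of a bounded sequence.
-/

set_option autoImplicit false
set_option linter.unusedSectionVars false

noncomputable section

namespace Pool.Agent.K9h74.LF

open Set Filter Topology

universe u v

variable {𝕜 : Type v} [RCLike 𝕜] {M : Type u} [MetricSpace M]

/-- cutoff function, `1` on the ball of radius `R` and `0` outside the ball of radius `2 R` -/
def cut (o : M) (R : ℝ) (p : M) : ℝ := max 0 (min 1 (2 - dist p o / R))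

theorem cut_nonneg (o : M) (R : ℝ) (p : M) : 0 ≤ cut o R p := le_max_left _ _

theorem cut_le_one (o : M) (R : ℝ) (p : M) : cut o R p ≤ 1 :=
  max_le zero_le_one (min_le_left _ _)

theorem cut_eq_one {o : M} {R : ℝ} (hR : 0 < R) {p : M} (hp : dist p o ≤ R) : cut o R p = 1 := by
  have h1 : dist p o / R ≤ 1 := (div_le_one hR).2 hp
  unfold cut
  rw [min_eq_left (by linarith), max_eq_right zero_le_one]

theorem cut_eq_zero {o : M} {R : ℝ} (hR : 0 < R) {p : M} (hp : 2 * R ≤ dist p o) :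
    cut o R p = 0 := by
  have h1 : 2 ≤ dist p o / R := (le_div_iff₀ hR).2 hp
  unfold cut
  exact max_eq_left ((min_le_right _ _).trans (by linarith))

theorem cut_lip {o : M} {R : ℝ} (hR : 0 < R) (x y : M) :
    |cut o R x - cut o R y| ≤ dist x y / R := by
  have h1 : |(2 - dist x o / R) - (2 - dist y o / R)| ≤ dist x y / R := by
    have : (2 - dist x o / R) - (2 - dist y o / R) = -((dist x o - dist y o) / R) := by ring
    rw [this, abs_neg, abs_div, abs_of_pos hR]
    exact div_le_div_of_nonneg_right (abs_dist_sub_le x y o) hR.le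
  refine le_trans ?_ h1
  unfold cut
  refine (abs_max_sub_max_le_max _ _ _ _).trans ?_
  rw [sub_self, abs_zero]
  refine max_le (abs_nonneg _) ?_
  refine (abs_min_sub_min_le_max _ _ _ _).trans ?_
  rw [sub_self, abs_zero]
  exact max_le (abs_nonneg _) le_rfl

theorem Lp.cut {o : M} {K R : ℝ} (hK : 0 ≤ K) (hR : 0 < R) {f : M → 𝕜} (hf : Lp o K f) :
    Lp o (3 * K) (fun p => ((LF.cut o R p : ℝ) : 𝕜) * f p) := by
  have aux : ∀ x y : M, dist y o < 2 * R →
      ‖((LF.cut o R x : ℝ) : 𝕜) * f x - ((LF.cut o R y : ℝ) : 𝕜) * f y‖ ≤ 3 * K * dist x y := by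
    intro x y hy
    have e : ((LF.cut o R x : ℝ) : 𝕜) * f x - ((LF.cut o R y : ℝ) : 𝕜) * f y =
        ((LF.cut o R x : ℝ) : 𝕜) * (f x - f y) +
          ((LF.cut o R x - LF.cut o R y : ℝ) : 𝕜) * f y := by
      push_cast; ring
    rw [e]
    have h1 : ‖((LF.cut o R x : ℝ) : 𝕜) * (f x - f y)‖ ≤ K * dist x y := by
      rw [norm_mul, RCLike.norm_ofReal, abs_of_nonneg (cut_nonneg _ _ _)]
      calc _ ≤ 1 * (K * dist x y) :=
            mul_le_mul (cut_le_one _ _ _) (hf.2 x y) (norm_nonneg _) zero_le_one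
        _ = _ := one_mul _
    have h2 : ‖((LF.cut o R x - LF.cut o R y : ℝ) : 𝕜) * f y‖ ≤ 2 * K * dist x y := by
      rw [norm_mul, RCLike.norm_ofReal]
      have h3 : ‖f y‖ ≤ K * (2 * R) := by
        have := hf.2 y o
        rw [hf.1, sub_zero] at this
        exact this.trans (mul_le_mul_of_nonneg_left hy.le hK)
      calc _ ≤ dist x y / R * (K * (2 * R)) :=
            mul_le_mul (cut_lip hR x y) h3 (norm_nonneg _) (by positivity)
        _ = _ := by field_simp
    calc _ ≤ _ := norm_add_le _ _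
      _ ≤ K * dist x y + 2 * K * dist x y := add_le_add h1 h2
      _ = _ := by ring
  refine ⟨by simp [hf.1], fun x y => ?_⟩
  rcases lt_or_ge (dist y o) (2 * R) with hy | hy
  · exact aux x y hy
  · rcases lt_or_ge (dist x o) (2 * R) with hx | hx
    · rw [norm_sub_rev, dist_comm]
      exact aux y x hx
    · change ‖((LF.cut o R x : ℝ) : 𝕜) * f x - ((LF.cut o R y : ℝ) : 𝕜) * f y‖ ≤ _
      rw [cut_eq_zero hR hy, cut_eq_zero hR hx]
      simp only [RCLike.ofReal_zero, zero_mul, sub_self, norm_zero]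
      positivity

/-- blocks used in the gliding hump argument -/
structure Blk (𝕜 : Type v) (M : Type u) where
  l : ℕ
  g : M → 𝕜
  R : ℝ
  ρ : ℝ
  c : 𝕜

theorem bound_scale {o : M} {A : Finset M} {m : M → 𝕜} {B : ℝ}
    (hB : ∀ f : M → 𝕜, Lp o 1 f → ‖pr A m f‖ ≤ B) {K : ℝ} (hK : 0 < K) {f : M → 𝕜}
    (hf : Lp o K f) : ‖pr A m f‖ ≤ K * B := by
  have h1 : Lp o 1 (fun p => ((K⁻¹ : ℝ) : 𝕜) * f p) := by
    have := hf.smul (((K⁻¹ : ℝ) : 𝕜))
    rwa [RCLike.norm_ofReal, abs_of_pos (inv_pos.2 hK), inv_mul_cancel₀ hK.ne'] at this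
  have h2 := hB _ h1
  rw [pr_smul, norm_mul, RCLike.norm_ofReal, abs_of_pos (inv_pos.2 hK),
    inv_mul_le_iff₀ hK] at h2
  exact h2

theorem osc_scale {o : M} {A : ℕ → Finset M} {m : ℕ → M → 𝕜} {δ : ℝ} (hosc : Osc o A m δ)
    {K : ℝ} (hK : 0 < K) {f : M → 𝕜} (hf : Lp o K f) (ε : ℝ) (hε : 0 < ε) :
    ∃ n : ℕ, ∀ k, n ≤ k → ∀ l, n ≤ l →
      ‖pr (A k) (m k) f - pr (A l) (m l) f‖ ≤ K * δ + ε := by
  have h1 : Lp o 1 (fun p => ((K⁻¹ : ℝ) : 𝕜) * f p) := by
    have := hf.smul (((K⁻¹ : ℝ) : 𝕜))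
    rwa [RCLike.norm_ofReal, abs_of_pos (inv_pos.2 hK), inv_mul_cancel₀ hK.ne'] at this
  obtain ⟨n, hn⟩ := hosc _ h1 (ε / K) (by positivity)
  refine ⟨n, fun k hk l hl => ?_⟩
  have h2 := hn k hk l hl
  rw [pr_smul, pr_smul, ← mul_sub, norm_mul, RCLike.norm_ofReal, abs_of_pos (inv_pos.2 hK),
    inv_mul_le_iff₀ hK, mul_add] at h2
  rwa [mul_div_cancel₀ _ hK.ne'] at h2

/-- The escaping part of the sequence is small. -/
theorem tail_step (o : M) (U : Ultrafilter ℕ) (hU : (U : Filter ℕ) ≤ atTop) (A : ℕ → Finset M)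
    (m : ℕ → M → 𝕜) (B : ℝ) (hB : ∀ l, ∀ f : M → 𝕜, Lp o 1 f → ‖pr (A l) (m l) f‖ ≤ B)
    (δ : ℝ) (hosc : Osc o A m δ) (ε : ℝ) (hε : 0 < ε) :
    ∃ R : ℝ, 0 < R ∧ ∀ᶠ l in (U : Filter ℕ), ∀ f : M → 𝕜, Lp o 1 f →
      ‖pr (A l) (m l) (fun p => f p - ((LF.cut o R p : ℝ) : 𝕜) * f p)‖ ≤ 12 * δ + ε := by
  classical
  by_contra hcon
  push Not at hcon
  have hcon' : ∀ R : ℝ, 0 < R → ∀ᶠ l in (U : Filter ℕ), ∃ f : M → 𝕜, Lp o 1 f ∧
      12 * δ + ε < ‖pr (A l) (m l) (fun p => f p - ((LF.cut o R p : ℝ) : 𝕜) * f p)‖ := by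
    intro R hR
    exact hcon R hR
  set η : ℝ := ε / 30 with hη
  have hη0 : 0 < η := by positivity
  set c0 : ℝ := 12 * δ + ε with hc0
  obtain ⟨F, hP, hr⟩ := exists_seq_of_forall_finset_exists
    (fun x : Blk 𝕜 M => 0 < x.R ∧ Lp o 12 x.g ∧ (∀ p, dist p o ≤ x.R → x.g p = 0) ∧
      (∀ p, x.ρ ≤ dist p o → x.g p = 0) ∧
      Tendsto (fun l => pr (A l) (m l) x.g) U (𝓝 x.c) ∧ c0 < ‖pr (A x.l) (m x.l) x.g‖ ∧
      (∀ p ∈ A x.l, dist p o < x.ρ))
    (fun x y => x.l < y.l ∧ x.ρ ≤ y.R ∧ ‖pr (A y.l) (m y.l) x.g - x.c‖ ≤ η * (1 / 2) ^ x.l) (by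
      intro s hs
      obtain ⟨R0, hR0⟩ : ∃ R0 : ℝ, ∀ x ∈ s, x.ρ ≤ R0 := by
        obtain ⟨R0, hR0⟩ := (s.image (fun x : Blk 𝕜 M => x.ρ)).bddAbove
        exact ⟨R0, fun x hx => hR0 (by simpa using ⟨x, hx, rfl⟩)⟩
      set R : ℝ := max R0 1 with hR
      have hRpos : 0 < R := lt_of_lt_of_le one_pos (le_max_right _ _)
      have e1 : ∀ᶠ l in (U : Filter ℕ), ∀ x ∈ s, x.l < l := by
        rw [Filter.eventually_all_finset]
        intro x _
        exact hU (Filter.eventually_gt_atTop x.l)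
      have e2 : ∀ᶠ l in (U : Filter ℕ), ∀ x ∈ s,
          ‖pr (A l) (m l) x.g - x.c‖ ≤ η * (1 / 2) ^ x.l := by
        rw [Filter.eventually_all_finset]
        intro x hx
        have h1 := (hs x hx).2.2.2.2.1
        have h2 := (h1.sub_const x.c).norm
        rw [sub_self, norm_zero] at h2
        exact (h2.eventually_lt_const (show (0 : ℝ) < η * (1 / 2) ^ x.l by positivity)).mono
          fun _ h => h.le
      obtain ⟨l, ⟨f, hf1, hf2⟩, hl1, hl2⟩ := ((hcon' R hRpos).and (e1.and e2)).exists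
      set ρ0 : ℝ := R + ∑ p ∈ A l, dist p o with hρ0
      have hρ0pos : 0 < ρ0 := by
        have : 0 ≤ ∑ p ∈ A l, dist p o := Finset.sum_nonneg fun _ _ => dist_nonneg
        linarith
      have hρA : ∀ p ∈ A l, dist p o ≤ ρ0 := by
        intro p hp
        have := Finset.single_le_sum (f := fun p => dist p o) (fun _ _ => dist_nonneg) hp
        linarith
      set g : M → 𝕜 := fun p => ((LF.cut o ρ0 p : ℝ) : 𝕜) *
        (f p - ((LF.cut o R p : ℝ) : 𝕜) * f p) with hg
      have hgL : Lp o 12 g := by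
        have h1 := (hf1.sub (hf1.cut zero_le_one hRpos)).cut (by norm_num) hρ0pos
        exact h1.mono (by norm_num)
      obtain ⟨c, hc⟩ := ulim (E := 𝕜) U (fun l => pr (A l) (m l) g) (12 * B)
        (fun l => bound_scale (hB l) (by norm_num) hgL)
      have hgA : pr (A l) (m l) g =
          pr (A l) (m l) (fun p => f p - ((LF.cut o R p : ℝ) : 𝕜) * f p) := by
        apply pr_congr
        intro p hp
        simp only [hg]
        rw [cut_eq_one hρ0pos (hρA p hp), RCLike.ofReal_one, one_mul]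
      refine ⟨⟨l, g, R, 2 * ρ0, c⟩, ⟨hRpos, hgL, fun p hp => ?_, fun p hp => ?_, hc, ?_,
        fun p hp => ?_⟩, fun x hx => ⟨hl1 x hx, (hR0 x hx).trans (le_max_left _ _), hl2 x hx⟩⟩
      · simp only [hg]
        rw [cut_eq_one (o := o) hRpos hp, RCLike.ofReal_one, one_mul, sub_self, mul_zero]
      · simp only [hg]
        rw [cut_eq_zero hρ0pos hp, RCLike.ofReal_zero, zero_mul]
      · change c0 < ‖pr (A l) (m l) g‖
        rw [hgA]
        exact hf2
      · have := hρA p hp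
        change dist p o < 2 * ρ0
        linarith)
  choose hR hg12 hg0 hgρ hlim hbig hsupp using hP
  have hl : StrictMono fun k => (F k).l := fun i j hij => (hr i j hij).1
  have hge : ∀ k, k ≤ (F k).l := fun k => hl.le_apply
  have hdisj : ∀ i j, i < j → ∀ p, (F i).g p ≠ 0 → (F j).g p = 0 := by
    intro i j hij p hp
    apply hg0
    by_contra hlt
    push Not at hlt
    exact hp (hgρ i p ((hr i j hij).2.1.trans hlt.le))
  have hι : ∀ p : M, ∃ i0 : ℕ, ∀ i, i ≠ i0 → (F i).g p = 0 := by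
    intro p
    by_cases hex : ∃ i, (F i).g p ≠ 0
    · obtain ⟨i0, hi0⟩ := hex
      refine ⟨i0, fun i hi => ?_⟩
      rcases lt_or_gt_of_ne hi with h | h
      · by_contra h2
        exact hi0 (hdisj i i0 h p h2)
      · exact hdisj i0 i h p hi0
    · push Not at hex
      exact ⟨0, fun i _ => hex i⟩
  choose ι hι using hι
  set G : (ℕ → 𝕜) → M → 𝕜 := fun w p => w (ι p) * (F (ι p)).g p with hG
  have hGsum : ∀ (w : ℕ → 𝕜) (p : M) (J : Finset ℕ), (ι p ∉ J → w (ι p) * (F (ι p)).g p = 0) →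
      G w p = ∑ i ∈ J, w i * (F i).g p := by
    intro w p J hJ
    by_cases h : ι p ∈ J
    · rw [Finset.sum_eq_single (ι p) (fun i _ hi => by rw [hι p i hi, mul_zero])
        (fun h' => absurd h h')]
    · rw [Finset.sum_eq_zero]
      · exact hJ h
      · intro i hi
        rw [hι p i (fun h' => h (h' ▸ hi)), mul_zero]
  have hGL : ∀ w : ℕ → 𝕜, (∀ i, ‖w i‖ ≤ 1) → Lp o 24 (G w) := by
    intro w hw
    refine ⟨by simp only [hG]; rw [(hg12 (ι o)).1, mul_zero], fun x y => ?_⟩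
    have hx := hGsum w x {ι x, ι y} (fun h => absurd (Finset.mem_insert_self _ _) h)
    have hy := hGsum w y {ι x, ι y} (fun h => absurd
      (Finset.mem_insert_of_mem (Finset.mem_singleton_self _)) h)
    rw [hx, hy, ← Finset.sum_sub_distrib]
    have h1 : ∀ i ∈ ({ι x, ι y} : Finset ℕ),
        ‖w i * (F i).g x - w i * (F i).g y‖ ≤ 12 * dist x y := by
      intro i _
      rw [← mul_sub, norm_mul]
      calc _ ≤ 1 * (12 * dist x y) :=
            mul_le_mul (hw i) ((hg12 i).2 x y) (norm_nonneg _) zero_le_one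
        _ = _ := one_mul _
    refine (norm_sum_le_of_le _ h1).trans ?_
    rw [Finset.sum_const, nsmul_eq_mul]
    have h2 : (({ι x, ι y} : Finset ℕ).card : ℝ) ≤ 2 := by
      exact_mod_cast Finset.card_le_two
    have h3 : 0 ≤ 12 * dist x y := by positivity
    calc _ ≤ 2 * (12 * dist x y) := mul_le_mul_of_nonneg_right h2 h3
      _ = _ := by ring
  -- summability of the limits
  have hsum : Summable fun i => ‖(F i).c‖ := by
    refine summable_of_sum_le (c := 24 * B) (fun i => norm_nonneg _) fun J => ?_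
    set w : ℕ → 𝕜 := fun i => if i ∈ J then ph (F i).c else 0 with hw
    have hw1 : ∀ i, ‖w i‖ ≤ 1 := by
      intro i
      simp only [hw]
      split_ifs
      · rw [norm_ph]
      · simp
    have h1 : ∀ l, pr (A l) (m l) (G w) = ∑ i ∈ J, w i * pr (A l) (m l) (F i).g := by
      intro l
      rw [← pr_sum]
      apply pr_congr
      intro p _
      apply hGsum
      intro h
      simp only [hw, if_neg h, zero_mul]
    have h2 : Tendsto (fun l => pr (A l) (m l) (G w)) U (𝓝 (∑ i ∈ J, w i * (F i).c)) := by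
      simp_rw [h1]
      exact tendsto_finsetSum _ fun i _ => (hlim i).const_mul _
    have h3 : ‖∑ i ∈ J, w i * (F i).c‖ ≤ 24 * B :=
      le_of_tendsto' h2.norm fun l => bound_scale (hB l) (by norm_num) (hGL w hw1)
    have h4 : ∑ i ∈ J, w i * (F i).c = ((∑ i ∈ J, ‖(F i).c‖ : ℝ) : 𝕜) := by
      rw [RCLike.ofReal_sum]
      refine Finset.sum_congr rfl fun i hi => ?_
      simp only [hw, if_pos hi, ph_mul]
    rw [h4, RCLike.norm_ofReal] at h3
    exact (le_abs_self _).trans h3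
  obtain ⟨s, hs⟩ := summable_iff_vanishing_norm.1 hsum η hη0
  obtain ⟨j0, hj0⟩ : ∃ j0, ∀ i ∈ s, i < j0 := ⟨s.sup id + 1, fun i hi =>
    Nat.lt_succ_of_le (Finset.le_sup (f := id) hi)⟩
  set w : ℕ → 𝕜 := fun i => if j0 ≤ i then
    (-1) ^ i * ph (pr (A (F i).l) (m (F i).l) (F i).g) else 0 with hw
  have hw1 : ∀ i, ‖w i‖ ≤ 1 := by
    intro i
    simp only [hw]
    split_ifs
    · simp only [norm_mul, norm_pow, norm_neg, norm_one, one_pow, norm_ph, mul_one, le_refl]
    · simp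
  have hval : ∀ j, j0 ≤ j → ‖pr (A (F j).l) (m (F j).l) (G w) -
      (-1) ^ j * ((‖pr (A (F j).l) (m (F j).l) (F j).g‖ : ℝ) : 𝕜)‖ ≤ 3 * η := by
    intro j hj
    have h1 : pr (A (F j).l) (m (F j).l) (G w) =
        ∑ i ∈ Finset.range (j + 1), w i * pr (A (F j).l) (m (F j).l) (F i).g := by
      rw [← pr_sum]
      apply pr_congr
      intro p hp
      apply hGsum
      intro h
      have h2 : j < ι p := by
        rw [Finset.mem_range] at h
        omega
      have h3 : (F (ι p)).g p = 0 := by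
        apply hg0
        exact (hsupp j p hp).le.trans (hr j (ι p) h2).2.1
      rw [h3, mul_zero]
    rw [h1, Finset.sum_range_succ]
    have h2 : w j * pr (A (F j).l) (m (F j).l) (F j).g =
        (-1) ^ j * ((‖pr (A (F j).l) (m (F j).l) (F j).g‖ : ℝ) : 𝕜) := by
      simp only [hw, if_pos hj]
      rw [mul_assoc, ph_mul]
    rw [h2, add_sub_cancel_right]
    have h3 : ∀ i ∈ Finset.range j, ‖w i * pr (A (F j).l) (m (F j).l) (F i).g‖ ≤
        (if j0 ≤ i then ‖(F i).c‖ else 0) + η * (1 / 2) ^ i := by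
      intro i hi
      have hij : i < j := Finset.mem_range.1 hi
      by_cases hji : j0 ≤ i
      · rw [if_pos hji, norm_mul]
        have h4 := (hr i j hij).2.2
        have h5 : ‖pr (A (F j).l) (m (F j).l) (F i).g‖ ≤ ‖(F i).c‖ + η * (1 / 2) ^ i := by
          have h6 : ‖pr (A (F j).l) (m (F j).l) (F i).g‖ ≤
              ‖pr (A (F j).l) (m (F j).l) (F i).g - (F i).c‖ + ‖(F i).c‖ := by
            have := norm_add_le (pr (A (F j).l) (m (F j).l) (F i).g - (F i).c) (F i).c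
            rwa [sub_add_cancel] at this
          have h7 : η * (1 / 2 : ℝ) ^ (F i).l ≤ η * (1 / 2) ^ i :=
            mul_le_mul_of_nonneg_left
              (pow_le_pow_of_le_one (by norm_num) (by norm_num) (hge i)) hη0.le
          linarith
        calc _ ≤ 1 * (‖(F i).c‖ + η * (1 / 2) ^ i) :=
              mul_le_mul (hw1 i) h5 (norm_nonneg _) zero_le_one
          _ = _ := one_mul _
      · simp only [hw, if_neg hji, zero_mul, norm_zero, zero_add]
        positivity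
    refine (norm_sum_le_of_le _ h3).trans ?_
    rw [Finset.sum_add_distrib]
    have h4 : ∑ i ∈ Finset.range j, (if j0 ≤ i then ‖(F i).c‖ else 0) ≤ η := by
      rw [← Finset.sum_filter]
      have h5 := hs ((Finset.range j).filter (fun i => j0 ≤ i)) (by
        rw [Finset.disjoint_left]
        intro i hi hi'
        have := hj0 i hi'
        have := (Finset.mem_filter.1 hi).2
        omega)
      exact ((le_abs_self _).trans h5.le)
    have h5 : ∑ i ∈ Finset.range j, η * (1 / 2 : ℝ) ^ i ≤ 2 * η := by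
      rw [← Finset.mul_sum]
      have h6 : ∑ i ∈ Finset.range j, (1 / 2 : ℝ) ^ i ≤ 2 := sum_geometric_two_le j
      nlinarith
    linarith
  -- contradiction
  obtain ⟨n, hn⟩ := osc_scale hosc (by norm_num : (0 : ℝ) < 24) (hGL w hw1) η hη0
  have h1 := hn (F (2 * (n + j0))).l ((by omega : n ≤ 2 * (n + j0)).trans (hge _))
    (F (2 * (n + j0) + 1)).l ((by omega : n ≤ 2 * (n + j0) + 1).trans (hge _))
  have m1 := hval (2 * (n + j0)) (by omega)
  have m2 := hval (2 * (n + j0) + 1) (by omega)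
  have c1 := hbig (2 * (n + j0))
  have c2 := hbig (2 * (n + j0) + 1)
  set a := ‖pr (A (F (2 * (n + j0))).l) (m (F (2 * (n + j0))).l) (F (2 * (n + j0))).g‖
  set b := ‖pr (A (F (2 * (n + j0) + 1)).l) (m (F (2 * (n + j0) + 1)).l)
    (F (2 * (n + j0) + 1)).g‖
  set x := pr (A (F (2 * (n + j0))).l) (m (F (2 * (n + j0))).l) (G w)
  set y := pr (A (F (2 * (n + j0) + 1)).l) (m (F (2 * (n + j0) + 1)).l) (G w)
  have s1 : (-1 : 𝕜) ^ (2 * (n + j0)) = 1 := by simp
  have s2 : (-1 : 𝕜) ^ (2 * (n + j0) + 1) = -1 := by rw [pow_succ, s1]; ring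
  rw [s1, one_mul] at m1
  rw [s2] at m2
  have h2 : (((a + b : ℝ)) : 𝕜) = (x - y) - (x - ((a : ℝ) : 𝕜)) +
      (y - -1 * ((b : ℝ) : 𝕜)) := by
    push_cast; ring
  have h3 : ‖(((a + b : ℝ)) : 𝕜)‖ ≤ (24 * δ + η) + 3 * η + 3 * η := by
    rw [h2]
    exact (norm_add_le _ _).trans (add_le_add ((norm_sub_le _ _).trans (add_le_add h1 m1)) m2)
  rw [RCLike.norm_ofReal] at h3
  have h4 := le_abs_self (a + b)
  have hη' : η = ε / 30 := hη
  linarith

end Pool.Agent.K9h74.LF
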